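import Pool.Agent.Q57.GM.Gor
import Pool.Agent.Q57.TQ.Kod

/-!
The lattice points of the polytope of the exponents, for covers of products of projective spaces.
-/

set_option autoImplicit false
set_option linter.overlappingInstances false
set_option linter.unusedSectionVars false

open Pool.Agent.Q57.TP Pool.Agent.Q57.TQ Pool.Agent.Q57.GM

namespace Pool.Agent.Q57.GH

section gen

variable {V ι : Type} [AddCommGroup V] [Fintype ι] [DecidableEq ι]

/-- the minimal slope of a functional -/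
theorem exists_slope_gen {L : V →+ (ι → ℤ)} (hL : Function.Injective L) (w : V →+ ℤ)
    {G : Finset V} (hne : G.Nonempty) (hpos : ∀ g ∈ G, 0 < w g)
    (hG2 : ∀ γ, (∀ s, 0 ≤ L γ s) → γ ∈ AddSubmonoid.closure (G : Set V)) (ℓ : V →+ ℤ) :
    ∃ g ∈ G, ∀ c : ι → ℤ, ∃ C : ℤ, 0 ≤ C ∧ ∀ (γ : V) (j : ℤ), 0 ≤ j →
      (∀ s, - (c s * j) ≤ L γ s) → w γ * ℓ g ≤ w g * ℓ γ + C * j := by
  classical
  obtain ⟨g, hg, hmin⟩ := Finset.exists_min_image G (fun g => (ℓ g : ℚ) / w g) hne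
  have hposq : ∀ h ∈ G, (0 : ℚ) < w h := fun h hh => by exact_mod_cast hpos h hh
  have hle : ∀ h ∈ G, w h * ℓ g ≤ w g * ℓ h := by
    intro h hh
    have h1 := hmin h hh
    rw [div_le_div_iff₀ (hposq g hg) (hposq h hh)] at h1
    have h2 : ((w h * ℓ g : ℤ) : ℚ) ≤ ((w g * ℓ h : ℤ) : ℚ) := by
      push_cast
      linarith
    exact_mod_cast h2
  let ℓ' : V →+ ℤ := AddMonoidHom.mk' (fun γ => w g * ℓ γ - w γ * ℓ g) (by
    intro x y
    simp only [map_add]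
    ring)
  have hℓ' : ∀ γ, ℓ' γ = w g * ℓ γ - w γ * ℓ g := fun γ => rfl
  have key : ∀ γ ∈ AddSubmonoid.closure (G : Set V), 0 ≤ ℓ' γ := by
    intro γ hγ
    induction hγ using AddSubmonoid.closure_induction with
    | mem h hh =>
      rw [hℓ']
      linarith [hle h hh]
    | zero => simp
    | add x y _ _ hx hy =>
      rw [map_add]
      exact add_nonneg hx hy
  refine ⟨g, hg, fun c => ?_⟩
  obtain ⟨C, hC0, hC⟩ := perturb L hL ℓ' (fun γ hγ => key γ (hG2 γ hγ)) c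
  refine ⟨C, hC0, fun γ j hj hγ => ?_⟩
  have h1 := hC γ j hj hγ
  rw [hℓ'] at h1
  linarith

end gen

section lat

variable {r : ℕ}

/-- the constraints for the exponents -/
def consH (T : Finset (Fin r → ℕ)) (dF κ : Fin r → ℤ) (L : ℤ) (p : T → ℤ) :
    (ℤ × (Fin r → ℤ)) →+ ((T ⊕ (Fin r ⊕ (Fin r ⊕ Unit))) → ℤ) :=
  AddMonoidHom.mk' (fun γ => Sum.elim (fun s => L * ∑ k, (s.1 k : ℤ) * γ.2 k - p s * γ.1)
    (Sum.elim (fun k => γ.2 k) (Sum.elim (fun k => κ k * γ.1 - dF k * γ.2 k) fun _ => γ.1))) (by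
    intro x y
    funext s
    rcases s with s | k | k | i
    · simp only [Sum.elim_inl, Pi.add_apply, Prod.fst_add, Prod.snd_add, mul_add,
        Finset.sum_add_distrib]
      ring
    · simp only [Sum.elim_inl, Sum.elim_inr, Pi.add_apply, Prod.snd_add]
    · simp only [Sum.elim_inl, Sum.elim_inr, Pi.add_apply, Prod.snd_add, Prod.fst_add]
      ring
    · simp only [Sum.elim_inr, Pi.add_apply, Prod.fst_add])

variable {T : Finset (Fin r → ℕ)} {dF κ : Fin r → ℤ} {L : ℤ} {p : T → ℤ}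

theorem consH_vec (γ : ℤ × (Fin r → ℤ)) (s : T) : consH T dF κ L p γ (Sum.inl s) =
    L * ∑ k, (s.1 k : ℤ) * γ.2 k - p s * γ.1 := rfl

theorem consH_coord (γ : ℤ × (Fin r → ℤ)) (k : Fin r) :
    consH T dF κ L p γ (Sum.inr (Sum.inl k)) = γ.2 k := rfl

theorem consH_deg (γ : ℤ × (Fin r → ℤ)) (k : Fin r) :
    consH T dF κ L p γ (Sum.inr (Sum.inr (Sum.inl k))) = κ k * γ.1 - dF k * γ.2 k := rfl

theorem consH_m (γ : ℤ × (Fin r → ℤ)) (u : Unit) :
    consH T dF κ L p γ (Sum.inr (Sum.inr (Sum.inr u))) = γ.1 := rfl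

theorem consH_inj : Function.Injective (consH T dF κ L p) := by
  rw [injective_iff_map_eq_zero]
  intro γ hγ
  refine Prod.ext ?_ ?_
  · exact congrFun hγ (Sum.inr (Sum.inr (Sum.inr ())))
  · funext k
    exact congrFun hγ (Sum.inr (Sum.inl k))

/-- the lattice points with the exact constraints -/
def ExH (T : Finset (Fin r → ℕ)) (dF κ : Fin r → ℤ) (L : ℤ) (p : T → ℤ)
    (γ : ℤ × (Fin r → ℤ)) : Prop := ∀ s, 0 ≤ consH T dF κ L p γ s

theorem ExH.pos {γ : ℤ × (Fin r → ℤ)} (hd : ∀ k, 0 < dF k) (h : ExH T dF κ L p γ)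
    (h0 : γ ≠ 0) : 0 < γ.1 := by
  rcases (h (Sum.inr (Sum.inr (Sum.inr ())))).lt_or_eq with h1 | h1
  · exact h1
  exfalso
  rw [consH_m] at h1
  apply h0
  refine Prod.ext h1.symm ?_
  funext k
  have h2 := h (Sum.inr (Sum.inr (Sum.inl k)))
  have h3 := h (Sum.inr (Sum.inl k))
  rw [consH_deg, ← h1, mul_zero] at h2
  rw [consH_coord] at h3
  have h4 := hd k
  change γ.2 k = 0
  nlinarith

/-- the lattice points with exact constraints satisfy all the inequalities -/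
theorem ExH.adm {c : (Fin r → ℕ) → ℚ} {L : ℕ}
    (hL : 0 < L) (hp : ∀ s : T, (L : ℚ) * (1 - c s.1) = p s)
    {γ : ℤ × (Fin r → ℤ)} (h : ExH T dF κ L p γ) {v : Fin r → ℕ} {w : (Fin r → ℕ) → ℚ}
    (hw : ∀ s, 0 ≤ w s) (hwv : ∀ k, ∑ s ∈ T, w s * s k ≤ v k)
    (hwc : 1 - c v ≤ ∑ s ∈ T, w s * (1 - c s)) :
    (γ.1 : ℚ) * (1 - c v) ≤ ((∑ k, (v k : ℤ) * γ.2 k : ℤ) : ℚ) := by
  classical
  have hLq : (0 : ℚ) < L := by exact_mod_cast hL
  have hm : (0 : ℚ) ≤ γ.1 := by exact_mod_cast h (Sum.inr (Sum.inr (Sum.inr ())))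
  have h1 : ∀ s : T, (γ.1 : ℚ) * (1 - c s.1) ≤ ∑ k, (s.1 k : ℚ) * γ.2 k := by
    intro s
    have h2 := h (Sum.inl s)
    rw [consH_vec] at h2
    have h3 : ((p s * γ.1 : ℤ) : ℚ) ≤ ((L * ∑ k, (s.1 k : ℤ) * γ.2 k : ℤ) : ℚ) := by
      exact_mod_cast (by linarith : p s * γ.1 ≤ L * ∑ k, (s.1 k : ℤ) * γ.2 k)
    push_cast at h3
    rw [← hp s] at h3
    have h4 : (L : ℚ) * ((γ.1 : ℚ) * (1 - c s.1)) ≤ L * ∑ k, (s.1 k : ℚ) * γ.2 k := by
      linarith
    exact le_of_mul_le_mul_left h4 hLq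
  have h2 : ∀ k, (0 : ℚ) ≤ γ.2 k := by
    intro k
    have h3 : 0 ≤ γ.2 k := h (Sum.inr (Sum.inl k))
    exact_mod_cast h3
  calc (γ.1 : ℚ) * (1 - c v) ≤ γ.1 * ∑ s ∈ T, w s * (1 - c s) :=
        mul_le_mul_of_nonneg_left hwc hm
    _ = ∑ s ∈ T, w s * (γ.1 * (1 - c s)) := by
        rw [Finset.mul_sum]
        exact Finset.sum_congr rfl fun s _ => by ring
    _ ≤ ∑ s ∈ T, w s * ∑ k, (s k : ℚ) * γ.2 k :=
        Finset.sum_le_sum fun s hs => mul_le_mul_of_nonneg_left (h1 ⟨s, hs⟩) (hw s)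
    _ = ∑ k, (∑ s ∈ T, w s * s k) * γ.2 k := by
        simp only [Finset.mul_sum, Finset.sum_mul]
        rw [Finset.sum_comm]
        exact Finset.sum_congr rfl fun k _ => Finset.sum_congr rfl fun s _ => by ring
    _ ≤ ∑ k, (v k : ℚ) * γ.2 k :=
        Finset.sum_le_sum fun k _ => mul_le_mul_of_nonneg_right (hwv k) (h2 k)
    _ = _ := by
        push_cast
        rfl

/-- a lattice point -/
theorem exists_exH {R : ℕ} {M : Fin R → ℕ} (hM : ∀ j, 0 < M j) (a : Fin R → Fin r → ℕ)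
    {n d : Fin r → ℕ} (hd : ∀ i, 1 ≤ d i) {c : (Fin r → ℕ) → ℚ} (hc1 : ∀ v, c v ≤ 1)
    (hT : ∀ s ∈ T, Pool.Agent.Y169.CH.Adm M a s)
    {L : ℕ} (hp : ∀ s : T, (L : ℚ) * (1 - c s.1) = p s)
    (hpos : ∀ v, Pool.Agent.Y169.CH.Adm M a v →
      1 - c v ≤ ∑ i, (((d i : ℚ) - n i - 1) / d i) * v i) :
    (∀ i, 0 ≤ (d i : ℤ) - n i - 1) ∧ ∃ γ : ℤ × (Fin r → ℤ),
      ExH T (fun i => (d i : ℤ)) (fun i => (d i : ℤ) - n i - 1) L p γ ∧ γ ≠ 0 := by
  classical
  obtain ⟨α, hα⟩ : ∃ α : Fin r → ℚ, α = fun i => ((d i : ℚ) - n i - 1) / d i := ⟨_, rfl⟩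
  have hα' : ∀ v : Fin r → ℕ, ∑ i, (((d i : ℚ) - n i - 1) / d i) * v i = ∑ i, α i * v i :=
    fun v => by rw [hα]
  simp only [hα'] at hpos
  have hdq : ∀ i, (0 : ℚ) < d i := fun i => by exact_mod_cast hd i
  have hαd : ∀ i, (d i : ℚ) * α i = (d i : ℚ) - n i - 1 := by
    intro i
    rw [hα]
    have := (hdq i).ne'
    dsimp only
    field_simp
  have hPq : (0 : ℚ) < ((∏ j, M j : ℕ) : ℚ) := by
    exact_mod_cast Finset.prod_pos fun j _ => hM j
  have hα0 : ∀ i, 0 ≤ α i := by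
    intro i
    have h1 := hpos _ (Pool.Agent.Y169.CH.adm_single hM a i)
    rw [Finset.sum_eq_single i, Pi.single_eq_same] at h1
    · have h2 := hc1 (Pi.single i (∏ j, M j))
      by_contra hcon
      push Not at hcon
      have h3 : α i * ((∏ j, M j : ℕ) : ℚ) < 0 := mul_neg_of_neg_of_pos hcon hPq
      linarith
    · intro s _ hs
      rw [Pi.single_eq_of_ne hs]
      simp
    · intro h
      exact absurd (Finset.mem_univ _) h
  have hκ : ∀ i, 0 ≤ (d i : ℤ) - n i - 1 := by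
    intro i
    have h1 : (0 : ℚ) ≤ (((d i : ℤ) - n i - 1 : ℤ) : ℚ) := by
      push_cast
      rw [← hαd]
      exact mul_nonneg (hdq i).le (hα0 i)
    exact_mod_cast h1
  refine ⟨hκ, ?_⟩
  obtain ⟨Q, hQ⟩ : ∃ Q, Q = ∏ i, d i := ⟨_, rfl⟩
  have hQ0 : 0 < Q := by
    rw [hQ]
    exact Finset.prod_pos fun i _ => hd i
  have hdvd : ∀ i, ∃ q, Q = d i * q := fun i => by
    rw [hQ]
    exact Finset.dvd_prod_of_mem d (Finset.mem_univ i)
  choose q hq using hdvd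
  have hy : ∀ i, ((((d i : ℤ) - n i - 1) * q i : ℤ) : ℚ) = Q * α i := by
    intro i
    push_cast
    rw [← hαd, show (Q : ℚ) = d i * q i by exact_mod_cast hq i]
    ring
  refine ⟨((Q : ℤ), fun i => ((d i : ℤ) - n i - 1) * q i), fun s => ?_, ?_⟩
  · rcases s with s | k | k | u
    · rw [consH_vec]
      have h1 : (0 : ℚ) ≤ ((L * ∑ k, (s.1 k : ℤ) * (((d k : ℤ) - n k - 1) * q k) - p s * Q : ℤ) :
          ℚ) := by
        have h2 : ((∑ k, (s.1 k : ℤ) * (((d k : ℤ) - n k - 1) * q k) : ℤ) : ℚ) =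
            Q * ∑ k, α k * s.1 k := by
          rw [Int.cast_sum, Finset.mul_sum]
          refine Finset.sum_congr rfl fun k _ => ?_
          rw [Int.cast_mul, hy]
          push_cast
          ring
        rw [Int.cast_sub, Int.cast_mul, h2, Int.cast_mul, ← hp s]
        have h3 := hpos s.1 (hT _ s.2)
        have h5 : (0 : ℚ) ≤ L * Q := by positivity
        have h6 := mul_le_mul_of_nonneg_left h3 h5
        push_cast
        linarith
      exact_mod_cast h1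
    · rw [consH_coord]
      exact mul_nonneg (hκ k) (by positivity)
    · rw [consH_deg]
      have h1 : (Q : ℤ) = d k * q k := by exact_mod_cast hq k
      dsimp only
      rw [h1]
      exact le_of_eq (by ring)
    · rw [consH_m]
      positivity
  · intro h0
    have h1 : (Q : ℤ) = 0 := congrArg Prod.fst h0
    omega

/-- the functional of a vector -/
def lvH (v : Fin r → ℕ) : (ℤ × (Fin r → ℤ)) →+ ℤ :=
  AddMonoidHom.mk' (fun γ => ∑ k, (v k : ℤ) * γ.2 k) (by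
    intro x y
    simp only [Prod.snd_add, Pi.add_apply, mul_add, Finset.sum_add_distrib])

theorem lvH_apply (v : Fin r → ℕ) (γ : ℤ × (Fin r → ℤ)) : lvH v γ = ∑ k, (v k : ℤ) * γ.2 k := rfl

end lat

end Pool.Agent.Q57.GH
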