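import Pool.Agent.Q57.GH.Mod
import Pool.Agent.Q57.GM.Gmm

/-!
Good minimal models, for covers of products of projective spaces: the asymptotic orders of the
sections of `m (K + Δ) + j A` are computed by finitely many sections of one multiple of `K + Δ`.
-/

set_option autoImplicit false
set_option linter.overlappingInstances false
set_option linter.unusedSectionVars false
set_option maxHeartbeats 1000000

open FF MvPolynomial Pool.Agent.W603.LV Pool.Agent.W602.GT Pool.Agent.W602.Cov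
open Pool.Agent.TH756.PR Pool.Agent.TH122.AB Pool.Agent.TH756.PN
open Pool.Agent.Y169.CH Pool.Agent.Y169.CH.Cvr Pool.Agent.Q57.TP Pool.Agent.Q57.TQ Pool.Agent.Q57.GM

namespace Pool.Agent.Q57.GH

variable {r R N' : ℕ} {n : Fin r → ℕ} {K : Type} [Field K] [Algebra ℂ K]
  {e : ((i : Fin r) × Fin (n i)) ≃ Fin (N' + 1)} {Φ : Blk ℂ (N' + 1) r} {C : Cvr Φ K R}
  {dF : Fin r → ℕ} {x : ∀ i, Fin (n i + 1) → K} {F : ∀ i, MvPolynomial (Fin (n i + 1)) ℂ}
  {c : (Fin r → ℕ) → ℚ} {δ : Place ℂ K → ℚ}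

/-- the order of a monomial in the new coordinates -/
theorem ord_mono_low (H : Mon e C dF x F) {P : Place ℂ K} {α : Fin r → ℤ}
    {l : ∀ i, Fin (n i + 1)} {v : Fin r → ℕ} (h : DatH P dF x F α l v)
    (a : Fin (N' + 1) →₀ ℕ) :
    ∑ t, (α t - P.ord (x t 0)) * (Φ.wbd a t : ℤ) + ∑ t, (v t : ℤ) * a (Φ.c t) ≤
      ∑ b, (a b : ℤ) * P.ord (C.Y b) := by
  classical
  have h1 : ∀ b, (α (Φ.τ b) - P.ord (x (Φ.τ b) 0)) * ((Φ.wg b * a b : ℕ) : ℤ) +
      (if b = Φ.c (Φ.τ b) then (v (Φ.τ b) : ℤ) else 0) * a b ≤ (a b : ℤ) * P.ord (C.Y b) := by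
    intro b
    by_cases hb : b = Φ.c (Φ.τ b)
    · rw [if_pos hb]
      have h2 : C.Y b = aeval C.Z (Φ.F (Φ.τ b)) := by
        conv_lhs => rw [hb]
        rw [C.Y_c]
      have h3 : Φ.wg b = Φ.D (Φ.τ b) := by
        unfold Blk.wg
        rw [if_pos hb]
      rw [h2, h.ordF H, h3, H.hΦD]
      refine le_of_eq ?_
      push_cast
      ring
    · rw [if_neg hb, C.Y_n hb, H.ordZ]
      have h3 : Φ.wg b = 1 := by
        unfold Blk.wg
        rw [if_neg hb]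
      rw [h3]
      have h4 := h.h1 (e.symm b).1 (e.symm b).2.succ
      rw [H.hτ]
      have h5 : (0 : ℤ) ≤ a b := by positivity
      have h6 := mul_le_mul_of_nonneg_left h4 h5
      push_cast
      linarith
  refine le_trans (le_of_eq ?_) (Finset.sum_le_sum fun b _ => h1 b)
  rw [Finset.sum_add_distrib]
  congr 1
  · simp only [Blk.wbd]
    push_cast
    simp only [Finset.mul_sum]
    rw [Finset.sum_comm]
    refine Finset.sum_congr rfl fun b _ => ?_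
    rw [Finset.sum_eq_single (Φ.τ b)]
    · rw [if_pos rfl]
    · intro t _ ht
      rw [if_neg (Ne.symm ht), mul_zero]
    · intro h
      exact absurd (Finset.mem_univ _) h
  · have h2 := Pool.Agent.Y169.CH.Cvr.wt_piv (Φ := Φ) v a
    unfold Pool.Agent.Y169.CH.wt at h2
    have h3 : ((∑ t, v t * a (Φ.c t) : ℕ) : ℤ) =
        ((∑ b, (if b = Φ.c (Φ.τ b) then v (Φ.τ b) else 0) * a b : ℕ) : ℤ) := by
      rw [h2]
    push_cast at h3
    exact h3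

/-- **The asymptotic orders.** -/
theorem gmmH (H : Mon e C dF x F) (hdF : ∀ i, 1 ≤ dF i) (hΦ : Smo Φ) (hcf : CoefH C c δ)
    (hmul : ∀ v (r : ℕ), 1 ≤ r → Adm C.M C.a v → 1 - c (r • v) ≤ r * (1 - c v))
    (hfg : FGH C.M C.a c)
    (hpos : ∀ v, Adm C.M C.a v → 1 - c v ≤ ∑ i, (((dF i : ℚ) - n i - 1) / dF i) * v i) :
    ∃ (m0 r' : ℕ) (ω : Fin r' → (Fin (N' + 1) → Derivation ℂ K K) → K), 0 < m0 ∧
      (∀ i, BSec (N' + 1) δ {1} m0 1 (ω i)) ∧
      ∀ P : Place ℂ K, ∃ i, ∀ S : Finset K, ∃ C1 : ℤ, ∀ (m j : ℕ)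
        (η : (Fin (N' + 1) → Derivation ℂ K K) → K), 1 ≤ m → BSec (N' + 1) δ S m j η →
        ∀ D, η D = 0 ∨ (ω i D ≠ 0 ∧
          (m : ℤ) * P.ord (ω i D) ≤ m0 * P.ord (η D) + C1 * (j + 1)) := by
  classical
  obtain ⟨T, hTadm, hTgen⟩ := hfg
  obtain ⟨L, hL, hden⟩ := Pool.Agent.Y169.TH.exists_den fun s : T => 1 - c s.1
  choose p hp using hden
  obtain ⟨hκ0, γ0, hγ0, hγ00⟩ := exists_exH (n := n) C.hM C.a hdF hcf.le hTadm hp hpos
  obtain ⟨G, hG1, hG2⟩ := gordan (consH T (fun i => (dF i : ℤ)) (fun i => (dF i : ℤ) - n i - 1) L p)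
    consH_inj
  have hGne : G.Nonempty := by
    by_contra hcon
    rw [Finset.not_nonempty_iff_eq_empty] at hcon
    have h1 := hG2 γ0 hγ0
    rw [hcon, Finset.coe_empty, AddSubmonoid.closure_empty, AddSubmonoid.mem_bot] at h1
    exact hγ00 h1
  have hdpos : ∀ k, (0 : ℤ) < dF k := fun k => by exact_mod_cast hdF k
  have hGpos : ∀ g ∈ G, 0 < g.1 := fun g hg => ExH.pos hdpos (hG1 g hg).2 (hG1 g hg).1
  -- the common multiple
  obtain ⟨m0, hm0⟩ : ∃ m0 : ℕ, (m0 : ℤ) = ∏ g ∈ G, g.1 :=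
    ⟨(∏ g ∈ G, g.1).toNat, Int.toNat_of_nonneg (Finset.prod_nonneg fun g hg => (hGpos g hg).le)⟩
  have hm0pos : 0 < m0 := by
    have h1 : 0 < ∏ g ∈ G, g.1 := Finset.prod_pos hGpos
    omega
  have htt : ∀ g ∈ G, ∃ t : ℤ, 0 ≤ t ∧ (m0 : ℤ) = g.1 * t := by
    intro g hg
    refine ⟨∏ h ∈ G.erase g, h.1, Finset.prod_nonneg fun h hh =>
      (hGpos h (Finset.mem_of_mem_erase hh)).le, ?_⟩
    rw [hm0, Finset.mul_prod_erase G (fun g => g.1) hg]
  choose! t ht0 ht using htt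
  -- the sections
  have hsec : ∀ g ∈ G, ∀ l : (∀ i, Fin (n i + 1)),
      BSec (N' + 1) δ {1} m0 1 (sH e dF x F m0 (fun k => t g * g.2 k) l) := by
    intro g hg l
    have hex := (hG1 g hg).2
    refine sH_sec H hcf (fun i => ?_) (fun v hv => ?_) l
    · have h1 := hex (Sum.inr (Sum.inr (Sum.inl i)))
      rw [consH_deg] at h1
      rw [ht g hg]
      have h2 := mul_le_mul_of_nonneg_left (sub_nonneg.1 h1) (ht0 g hg)
      linarith
    · obtain ⟨w, hw, hwv, hwc⟩ := hTgen v hv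
      have h1 := ExH.adm hL hp hex hw hwv hwc
      have h2 : (m0 : ℚ) = g.1 * t g := by exact_mod_cast ht g hg
      have h3 : (0 : ℚ) ≤ t g := by exact_mod_cast ht0 g hg
      have h4 := mul_le_mul_of_nonneg_left h1 h3
      rw [h2]
      have h5 : ((∑ k, (v k : ℤ) * (t g * g.2 k) : ℤ) : ℚ) =
          t g * ((∑ k, (v k : ℤ) * g.2 k : ℤ) : ℚ) := by
        push_cast
        rw [Finset.mul_sum]
        exact Finset.sum_congr rfl fun k _ => by ring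
      rw [h5]
      linarith
  let I := {g // g ∈ G} × (∀ i, Fin (n i + 1))
  let eI : I ≃ Fin (Fintype.card I) := Fintype.equivFin I
  refine ⟨m0, Fintype.card I, fun i => sH e dF x F m0 (fun k => t (eI.symm i).1.1 *
    (eI.symm i).1.1.2 k) (eI.symm i).2, hm0pos, fun i => hsec _ (eI.symm i).1.2 _, fun P => ?_⟩
  obtain ⟨α, l, v, hdat⟩ := H.exists_dat P
  obtain ⟨g, hg, hslope⟩ := exists_slope_gen consH_inj (AddMonoidHom.fst ℤ (Fin r → ℤ)) hGne hGpos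
    hG2 (lvH v)
  refine ⟨eI (⟨g, hg⟩, l), fun S => ?_⟩
  simp only [Equiv.symm_apply_apply]
  -- the directions
  choose X hX using fun s : T => C.exists_dir (hTadm s.1 s.2).1 (hTadm s.1 s.2).2
  obtain ⟨D0, hD0'⟩ := exists_dual C.hZ
  have hD0 : ∀ i j, D0 i (C.Z j) = if i = j then 1 else 0 := by
    intro i j
    have h1 := congrFun (congrFun hD0' i) j
    rw [Matrix.of_apply, Matrix.one_apply] at h1
    exact h1
  obtain ⟨N0, β, Q, c1, hQ, hstr⟩ := sec_str_d C hΦ hcf hmul X hD0 S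
  obtain ⟨Cs, hCs0, hCs⟩ := hslope (Sum.elim (fun _ => (L : ℤ) * c1)
    (Sum.elim (fun _ => 0) (Sum.elim (fun _ => (c1 : ℤ)) fun _ => 0)))
  obtain ⟨B, hB⟩ : ∃ B : ℤ, B = ∑ i, |P.ord (β i)| := ⟨_, rfl⟩
  have hB0 : 0 ≤ B := by
    rw [hB]
    exact Finset.sum_nonneg fun _ _ => abs_nonneg _
  have hBle : ∀ i, - B ≤ P.ord (β i) := by
    intro i
    have h1 := Finset.single_le_sum (f := fun i => |P.ord (β i)|) (fun _ _ => abs_nonneg _)
      (Finset.mem_univ i)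
    have h2 := neg_abs_le (P.ord (β i))
    rw [hB]
    linarith
  obtain ⟨A, hA⟩ : ∃ A : ℤ, A = ∑ i, |α i - P.ord (x i 0)| := ⟨_, rfl⟩
  have hA0 : 0 ≤ A := by
    rw [hA]
    exact Finset.sum_nonneg fun _ _ => abs_nonneg _
  refine ⟨t g * Cs + m0 * (A * c1) + m0 * B + m0 * |P.ord Q|, fun m j η hm hη D => ?_⟩
  by_cases hηD : η D = 0
  · exact Or.inl hηD
  right
  have hx0 : ∏ i, x i 0 ^ (n i + 1) ≠ 0 :=
    Finset.prod_ne_zero_iff.2 fun i _ => pow_ne_zero _ (H.hx i 0)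
  have hpl := pluri_eqH H hD0 hη.1 D
  have hprod : η D * (∏ i, x i 0 ^ (n i + 1)) ^ m ≠ 0 := mul_ne_zero hηD (pow_ne_zero _ hx0)
  have hbw : om e D x ≠ 0 := by
    intro h0
    apply hprod
    rw [hpl, h0, zero_pow (by omega), zero_mul]
  have hη0 : η D0 ≠ 0 := by
    intro h0
    apply hprod
    rw [hpl, h0, mul_zero]
  refine ⟨mul_ne_zero (pow_ne_zero _ hbw) (fH_ne H m0 _ _), ?_⟩
  obtain ⟨Rp, hR, hRs⟩ := hstr m j η (bsec_sec hη)
  obtain ⟨z, hz⟩ : ∃ z, z = η D0 * C.Lam m := ⟨_, rfl⟩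
  have hz0 : z ≠ 0 := by
    rw [hz]
    exact mul_ne_zero hη0 (C.Lam_ne m)
  rw [← hz] at hR
  have hsum : ∑ i, aeval C.Y (Rp i) * β i ≠ 0 := by
    rw [← hR]
    exact mul_ne_zero hz0 (pow_ne_zero _ hQ)
  have hYne : ∀ b, C.Y b ≠ 0 := fun b => C.ae_ne (Blk.yp_ne0 Φ b)
  obtain ⟨i, a, ha, hia⟩ := ord_sum_low P hYne Rp β hsum
  rw [← hR, P.ord_mul hz0 (pow_ne_zero _ hQ), P.ord_pow] at hia
  obtain ⟨hwbd, hT1⟩ := hRs i a ha
  -- the lattice point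
  obtain ⟨a', ha'⟩ : ∃ a' : Fin r → ℤ, a' = fun k => (a (Φ.c k) : ℤ) := ⟨_, rfl⟩
  have hcons : ∀ s, - ((Sum.elim (fun _ => (L : ℤ) * c1)
      (Sum.elim (fun _ => 0) (Sum.elim (fun _ => (c1 : ℤ)) fun _ => 0)) :
        T ⊕ (Fin r ⊕ (Fin r ⊕ Unit)) → ℤ) s * ((j : ℤ) + 1)) ≤
      consH T (fun i => (dF i : ℤ)) (fun i => (dF i : ℤ) - n i - 1) L p ((m : ℤ), a') s := by
    intro s
    rcases s with s | k | k | u
    · rw [consH_vec, Sum.elim_inl]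
      have h1 := hT1 s
      rw [hX] at h1
      have hLq : (0 : ℚ) < L := by exact_mod_cast hL
      have h2 := mul_le_mul_of_nonneg_left h1 hLq.le
      have h3 : (((- ((L : ℤ) * c1 * (j + 1)) : ℤ)) : ℚ) ≤
          ((L * ∑ k, (s.1 k : ℤ) * a' k - p s * m : ℤ) : ℚ) := by
        rw [ha']
        push_cast at h2 ⊢
        rw [← hp s]
        linarith
      exact_mod_cast h3
    · rw [consH_coord, Sum.elim_inr, Sum.elim_inl, zero_mul, neg_zero, ha']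
      positivity
    · rw [consH_deg, Sum.elim_inr, Sum.elim_inr, Sum.elim_inl]
      have h1 := hwbd k
      rw [wbd_c, H.hΦD, H.hΦn] at h1
      push_cast at h1
      have h2 : (0 : ℤ) ≤ ∑ b ∈ Finset.univ.erase (Φ.c k), (if Φ.τ b = k then (a b : ℤ) else 0) := by
        refine Finset.sum_nonneg fun b _ => ?_
        split_ifs
        · positivity
        · exact le_rfl
      rw [ha']
      dsimp only
      linarith
    · rw [consH_m, Sum.elim_inr, Sum.elim_inr, Sum.elim_inr, zero_mul, neg_zero]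
      positivity
  have hs := hCs ((m : ℤ), a') ((j : ℤ) + 1) (by positivity) hcons
  rw [lvH_apply, lvH_apply] at hs
  simp only [AddMonoidHom.coe_fst] at hs
  -- the orders
  unfold sH
  rw [P.ord_mul (pow_ne_zero _ hbw) (fH_ne H m0 _ _), P.ord_pow, ord_fH H hdat]
  have hord : P.ord (η D) + m * ∑ i, ((n i : ℤ) + 1) * P.ord (x i 0) =
      m * P.ord (om e D x) + P.ord z - m * ∑ t, (dF t * (α t - P.ord (x t 0)) + (v t : ℤ)) := by
    have h1 := congrArg P.ord hpl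
    rw [P.ord_mul hηD (pow_ne_zero _ hx0), P.ord_pow,
      ord_prod' P Finset.univ _ fun i _ => pow_ne_zero _ (H.hx i 0),
      P.ord_mul (pow_ne_zero _ hbw) hη0, P.ord_pow] at h1
    have h2 : ∑ i, P.ord (x i 0 ^ (n i + 1)) = ∑ i, ((n i : ℤ) + 1) * P.ord (x i 0) :=
      Finset.sum_congr rfl fun i _ => by
        rw [P.ord_pow]
        push_cast
        ring
    rw [h2] at h1
    have h3 : P.ord z = P.ord (η D0) + m * ∑ t, (dF t * (α t - P.ord (x t 0)) + (v t : ℤ)) := by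
      rw [hz, P.ord_mul hη0 (C.Lam_ne m), C.ord_Lam]
      congr 2
      exact Finset.sum_congr rfl fun k _ => hdat.ordF H k
    rw [h1, h3]
    ring
  have hmono := ord_mono_low H hdat a
  have hβ := hBle i
  -- the degrees
  have hdeg : ∑ t, (α t - P.ord (x t 0)) * ((((dF t : ℤ) - n t - 1) * m)) - A * c1 * (j + 1) ≤
      ∑ t, (α t - P.ord (x t 0)) * (Φ.wbd a t : ℤ) := by
    rw [hA, Finset.sum_mul, Finset.sum_mul, ← Finset.sum_sub_distrib]
    refine Finset.sum_le_sum fun t _ => ?_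
    have h1 := hwbd t
    rw [H.hΦD, H.hΦn] at h1
    have h2 : α t - P.ord (x t 0) ≤ 0 := by linarith [hdat.h1 t 0]
    rw [abs_of_nonpos h2]
    have h3 := mul_le_mul_of_nonpos_left h1 h2
    linarith
  -- the sums
  obtain ⟨o, ho⟩ : ∃ o : Fin r → ℤ, o = fun t => P.ord (x t 0) := ⟨_, rfl⟩
  have ho' : ∀ t, P.ord (x t 0) = o t := fun t => by rw [ho]
  simp only [ho'] at hord hdeg hmono
  obtain ⟨ℓa, hℓa⟩ : ∃ ℓa, ℓa = ∑ k, (v k : ℤ) * a' k := ⟨_, rfl⟩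
  obtain ⟨ℓg, hℓg⟩ : ∃ ℓg, ℓg = ∑ k, (v k : ℤ) * g.2 k := ⟨_, rfl⟩
  have hℓa' : ∑ t, (v t : ℤ) * (a (Φ.c t) : ℤ) = ℓa := by rw [hℓa, ha']
  rw [hℓa'] at hmono
  obtain ⟨Z1, hZ1⟩ : ∃ Z1, Z1 = ∑ i, ((n i : ℤ) + 1) * α i := ⟨_, rfl⟩
  obtain ⟨Z2, hZ2⟩ : ∃ Z2, Z2 = ∑ i, ((n i : ℤ) + 1) * o i := ⟨_, rfl⟩
  obtain ⟨V, hV⟩ : ∃ V, V = ∑ i, (v i : ℤ) := ⟨_, rfl⟩
  obtain ⟨Z3, hZ3⟩ : ∃ Z3, Z3 = ∑ t, (dF t : ℤ) * (α t - o t) := ⟨_, rfl⟩
  have hs1 : ∑ t, (dF t * (α t - o t) + (v t : ℤ)) = Z3 + V := by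
    rw [Finset.sum_add_distrib, hZ3, hV]
  have hs2 : ∑ t, (α t - o t) * (((dF t : ℤ) - n t - 1) * m) = m * Z3 - m * Z1 + m * Z2 := by
    rw [hZ1, hZ2, hZ3, Finset.mul_sum, Finset.mul_sum, Finset.mul_sum, ← Finset.sum_sub_distrib,
      ← Finset.sum_add_distrib]
    exact Finset.sum_congr rfl fun t _ => by ring
  have hs3 : ∑ i, (((fun k => t g * g.2 k) i - (m0 : ℤ)) * (dF i * α i + v i) +
      (((dF i : ℤ) - n i - 1) * m0 - dF i * (fun k => t g * g.2 k) i) * P.ord (x i (l i))) =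
      t g * ℓg - m0 * V - m0 * Z1 := by
    rw [hℓg, hV, hZ1, Finset.mul_sum, Finset.mul_sum, Finset.mul_sum, ← Finset.sum_sub_distrib,
      ← Finset.sum_sub_distrib]
    refine Finset.sum_congr rfl fun i _ => ?_
    rw [hdat.h2]
    ring
  rw [hs3]
  rw [hs1, ← hZ2] at hord
  rw [hs2] at hdeg
  rw [← hℓa, ← hℓg] at hs
  obtain ⟨bD, hbD⟩ : ∃ bD, bD = P.ord (om e D x) := ⟨_, rfl⟩
  obtain ⟨oz, hoz⟩ : ∃ oz, oz = P.ord z := ⟨_, rfl⟩
  obtain ⟨oQ, hoQ⟩ : ∃ oQ, oQ = P.ord Q := ⟨_, rfl⟩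
  obtain ⟨oη, hoη⟩ : ∃ oη, oη = P.ord (η D) := ⟨_, rfl⟩
  rw [← hbD, ← hoz, ← hoη] at hord
  rw [← hoz, ← hoQ] at hia
  rw [← hbD, ← hoη, ← hoQ]
  have hm0' := ht g hg
  have htg0 := ht0 g hg
  -- the lower bound for `oz`
  have h1 : m * Z3 - m * Z1 + m * Z2 + ℓa - A * c1 * (j + 1) - B - (j + 1) * |oQ| ≤ oz := by
    have h2 : ((j + 1 : ℕ) : ℤ) * oQ ≤ (j + 1) * |oQ| := by
      push_cast
      exact mul_le_mul_of_nonneg_left (le_abs_self _) (by positivity)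
    linarith
  -- the slope
  have h3 : (m : ℤ) * (t g * ℓg) ≤ m0 * ℓa + t g * (Cs * (j + 1)) := by
    have h4 := mul_le_mul_of_nonneg_left hs htg0
    rw [hm0']
    linarith
  have hm0q : (0 : ℤ) ≤ m0 := by positivity
  have h6 := mul_le_mul_of_nonneg_left h1 hm0q
  have h8 : (m0 : ℤ) * B ≤ m0 * B * (j + 1) := by
    have : (0 : ℤ) ≤ m0 * B * j := by positivity
    linarith
  have h9 : oη = m * bD + oz - m * (Z3 + V) - m * Z2 := by linarith
  rw [h9]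
  nlinarith

end Pool.Agent.Q57.GH
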