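import Pool.Agent.Q57.TQ.Mak
import Pool.Agent.Q57.GH.Lat

/-!
The cover, in coordinates in which the hypersurfaces are monic (following `Pool.Agent.Q57.TQ.Mak`).
-/

set_option autoImplicit false
set_option linter.overlappingInstances false
set_option linter.unusedSectionVars false
set_option maxHeartbeats 1000000

open FF MvPolynomial Pool.Agent.W603.LV Pool.Agent.W602.GT Pool.Agent.W602.Cov
open Pool.Agent.TH756.PR Pool.Agent.TH122.AB Pool.Agent.TH756.PN
open Pool.Agent.Y169.CH Pool.Agent.Q57.TP Pool.Agent.Q57.TQ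

namespace Pool.Agent.Q57.GH

variable {r N R : ℕ} {n : Fin r → ℕ} {K : Type} [Field K] [Algebra ℂ K]

section

variable {N' : ℕ} (e : ((i : Fin r) × Fin (n i)) ≃ Fin (N' + 1))

/-- **The cover.** -/
theorem exists_cvr_e (hn : ∀ i, 1 ≤ n i) {x : ∀ i, Fin (n i + 1) → K} (hx0 : ∀ i, x i 0 ≠ 0)
    (hbas : IsTranscendenceBasis ℂ (uu e x)) {F : ∀ i, MvPolynomial (Fin (n i + 1)) ℂ}
    {dF : Fin r → ℕ} (hdF : ∀ i, 1 ≤ dF i) (hs : ∀ i, SmF (F i))
    (hh : ∀ i, (F i).IsHomogeneous (dF i)) {z : Fin R → K}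
    {M : Fin R → ℕ} (hM : ∀ j, 0 < M j) {a : Fin R → Fin r → ℕ}
    (hz : ∀ j, z j ^ M j = ∏ i, (aeval (x i) (F i) / x i 0 ^ dF i) ^ a j i)
    (hdiv : ∀ j i, M j ∣ a j i * dF i)
    (hgen : IntermediateField.adjoin ℂ (Set.range (uu e x) ∪ Set.range z) = ⊤) :
    ∃ Φ : Blk ℂ (N' + 1) r, Smo Φ ∧ (∀ t, Φ.n t = n t) ∧ (∀ t, Φ.D t = dF t) ∧
      ∃ C : Cvr Φ K R, C.M = M ∧ C.a = a ∧ (∀ P v, MultH C P v → v = mulQ F dF x P) ∧
      ∃ (x' : ∀ i, Fin (n i + 1) → K) (F' : ∀ i, MvPolynomial (Fin (n i + 1)) ℂ),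
        (∀ i j, x' i j ≠ 0) ∧ (∀ i, SmF (F' i)) ∧ (∀ i, (F' i).IsHomogeneous (dF i)) ∧
        (∀ i, aeval (x' i) (F' i) ≠ 0) ∧ C.Z = uu e x' ∧
        (∀ t, aeval C.Z (Φ.F t) = aeval (x' t) (F' t) / x' t 0 ^ dF t) ∧
        ∀ b, Φ.τ b = (e.symm b).1 := by
  classical
  choose q c hq hc hqc using fun i => exists_sh (hh i) (smF_ne (hs i))
  obtain ⟨x', hx'⟩ : ∃ x' : ∀ i, Fin (n i + 1) → K, x' = fun i => shx (q i) (x i) := ⟨_, rfl⟩
  obtain ⟨F', hF'⟩ : ∃ F' : ∀ i, MvPolynomial (Fin (n i + 1)) ℂ,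
    F' = fun i => shF (q i) (c i) (F i) := ⟨_, rfl⟩
  have hhF' : ∀ i, (F' i).IsHomogeneous (dF i) := fun i => by
    rw [hF']
    exact shF_hom _ _ (hh i)
  have hsF' : ∀ i, SmF (F' i) := fun i => by
    rw [hF']
    exact shF_smooth (hq i) (hc i) (hs i)
  have hF3 : ∀ i, coeff (Finsupp.single (Fin.last (n i)) (dF i)) (F' i) = 1 := fun i => by
    rw [hF']
    exact hqc i
  have hxx' : ∀ i j, x i j = x' i j + algebraMap ℂ K (q i j) * x' i (Fin.last (n i)) := by
    intro i j
    rw [hx']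
    dsimp only
    rw [shx_last (hq i)]
    unfold shx
    ring
  have hev : ∀ i, aeval (x' i) (F' i) = algebraMap ℂ K (c i) * aeval (x i) (F i) := fun i => by
    rw [hx', hF']
    exact aeval_shF (hq i) _ _ _
  have hx'0 : ∀ i, x' i 0 ≠ 0 := by
    intro i h0
    rw [hx'] at h0
    obtain ⟨b, hb⟩ : ∃ b : Fin (n i), b.succ = Fin.last (n i) :=
      ⟨⟨n i - 1, by have := hn i; omega⟩, by
        apply Fin.ext
        have := hn i
        simp only [Fin.val_succ, Fin.val_last]
        omega⟩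
    have h1 : aeval (uu e x) (1 - C (q i 0) * X (e ⟨i, b⟩)) = 0 := by
      rw [map_sub, map_one, map_mul, aeval_C, aeval_X]
      have h2 : uu e x (e ⟨i, b⟩) = x i (Fin.last (n i)) / x i 0 := by
        change aff x (e.symm (e ⟨i, b⟩)) = _
        rw [e.symm_apply_apply, ← hb]
        rfl
      rw [h2]
      have h3 : x i 0 - algebraMap ℂ K (q i 0) * x i (Fin.last (n i)) = 0 := h0
      have h4 := hx0 i
      field_simp
      linear_combination h3
    have h2 := (injective_iff_map_eq_zero _).1 hbas.1 _ h1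
    have h3 := congrArg (eval (0 : Fin (N' + 1) → ℂ)) h2
    simp at h3
  obtain ⟨ρ, hρ⟩ : ∃ ρ : Fin r → K, ρ = fun i => x i 0 / x' i 0 := ⟨_, rfl⟩
  have hρ0 : ∀ i, ρ i ≠ 0 := fun i => by
    rw [hρ]
    exact div_ne_zero (hx0 i) (hx'0 i)
  -- the ratios in an intermediate field
  have hkey : ∀ L : IntermediateField ℂ K, (∀ b, uu e x' b ∈ L) → ∀ i j,
      x i j / x' i 0 ∈ L := by
    intro L hL i j
    have h1 : ∀ j, x' i j / x' i 0 ∈ L := by
      intro j
      refine Fin.cases ?_ (fun l => ?_) j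
      · rw [div_self (hx'0 i)]
        exact L.one_mem
      · have h2 := hL (e ⟨i, l⟩)
        have h3 : uu e x' (e ⟨i, l⟩) = x' i l.succ / x' i 0 := by
          change aff x' (e.symm (e ⟨i, l⟩)) = _
          rw [e.symm_apply_apply]
          rfl
        rwa [h3] at h2
    have h2 : x i j / x' i 0 = x' i j / x' i 0 +
        algebraMap ℂ K (q i j) * (x' i (Fin.last (n i)) / x' i 0) := by
      rw [hxx' i j]
      ring
    rw [h2]
    exact L.add_mem (h1 j) (L.mul_mem (L.algebraMap_mem _) (h1 _))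
  have hkey2 : ∀ L : IntermediateField ℂ K, (∀ b, uu e x' b ∈ L) → ∀ b, uu e x b ∈ L := by
    intro L hL b
    have h1 : uu e x b = (x (e.symm b).1 (e.symm b).2.succ / x' (e.symm b).1 0) /
        (x (e.symm b).1 0 / x' (e.symm b).1 0) := by
      rw [div_div_div_cancel_right₀ (hx'0 _)]
      rfl
    rw [h1]
    exact L.div_mem (hkey L hL _ _) (hkey L hL _ _)
  have hbas' : IsTranscendenceBasis ℂ (uu e x') := by
    refine basis_of_le hbas ?_
    rw [IntermediateField.adjoin_le_iff]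
    rintro _ ⟨b, rfl⟩
    refine hkey2 _ (fun b' => ?_) b
    exact IntermediateField.subset_adjoin ℂ _ (Set.mem_range_self b')
  -- the constants
  have hκ : ∀ j, ∃ κ : ℂ, κ ^ M j = ∏ i, c i ^ a j i := fun j =>
    IsAlgClosed.exists_pow_nat_eq _ (hM j)
  choose κ hκ using hκ
  have hκ0 : ∀ j, κ j ≠ 0 := by
    intro j h0
    have h1 := hκ j
    rw [h0, zero_pow (hM j).ne'] at h1
    exact (Finset.prod_ne_zero_iff.2 fun i _ => pow_ne_zero _ (hc i)) h1.symm
  obtain ⟨s, hs'⟩ : ∃ s : Fin R → K, s = fun j => algebraMap ℂ K (κ j) *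
    ∏ i, ρ i ^ (a j i * dF i / M j) := ⟨_, rfl⟩
  have hs0 : ∀ j, s j ≠ 0 := fun j => by
    rw [hs']
    exact mul_ne_zero (by rw [Ne, map_eq_zero]; exact hκ0 j)
      (Finset.prod_ne_zero_iff.2 fun i _ => pow_ne_zero _ (hρ0 i))
  have hsM : ∀ j, s j ^ M j = ∏ i, (algebraMap ℂ K (c i) * ρ i ^ dF i) ^ a j i := by
    intro j
    rw [hs']
    dsimp only
    rw [mul_pow, ← map_pow, hκ, map_prod, ← Finset.prod_pow, ← Finset.prod_mul_distrib]
    refine Finset.prod_congr rfl fun i _ => ?_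
    rw [map_pow, ← pow_mul, Nat.div_mul_cancel (hdiv j i), mul_pow, ← pow_mul, mul_comm (dF i)]
  have hx'ne : ∀ i j, x' i j ≠ 0 := by
    intro i j
    refine Fin.cases (hx'0 i) (fun l => ?_) j
    intro h0
    have h1 : uu e x' (e ⟨i, l⟩) = x' i l.succ / x' i 0 := by
      change aff x' (e.symm (e ⟨i, l⟩)) = _
      rw [e.symm_apply_apply]
      rfl
    rw [h0, zero_div] at h1
    exact hbas'.1.ne_zero _ h1
  have hF'x : ∀ i, aeval (x' i) (F' i) ≠ 0 := by
    intro i h0
    have h1 : aeval (uu e x') ((hblk e hn hdF hhF' hF3).F i) =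
        aeval (x' i) (F' i) / x' i 0 ^ dF i := aeval_dh e hx'0 (hhF' i)
    rw [h0, zero_div] at h1
    exact (hblk e hn hdF hhF' hF3).F_ne i ((injective_iff_map_eq_zero _).1 hbas'.1 _ h1)
  refine ⟨hblk e hn hdF hhF' hF3, hblk_smo e hn hdF hhF' hF3 hsF', hblk_n e hn hdF hhF' hF3,
    fun t => rfl, ⟨uu e x', hbas', fun j => z j * s j, M, hM, a, fun j => ?_, hdiv, ?_⟩, rfl, rfl,
    fun P v hm => ?_, x', F', hx'ne, hsF', hhF', hF'x, rfl,
    fun t => aeval_dh e hx'0 (hhF' t), fun b => rfl⟩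
  · rw [mul_pow, hz, hsM, ← Finset.prod_mul_distrib]
    refine Finset.prod_congr rfl fun i _ => ?_
    have h1 : aeval (uu e x') ((hblk e hn hdF hhF' hF3).F i) =
        aeval (x' i) (F' i) / x' i 0 ^ dF i := aeval_dh e hx'0 (hhF' i)
    rw [h1, hev, ← mul_pow, hρ]
    congr 1
    have h2 := hx0 i
    have h3 := hx'0 i
    dsimp only
    rw [div_pow]
    field_simp
  · rw [eq_top_iff, ← hgen, IntermediateField.adjoin_le_iff]
    obtain ⟨L, hL⟩ : ∃ L, L = IntermediateField.adjoin ℂ (Set.range (uu e x') ∪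
      Set.range fun j => z j * s j) := ⟨_, rfl⟩
    rw [← hL]
    have hu : ∀ b, uu e x' b ∈ L := fun b => by
      rw [hL]
      exact IntermediateField.subset_adjoin ℂ _ (Or.inl ⟨b, rfl⟩)
    rintro _ (⟨b, rfl⟩ | ⟨j, rfl⟩)
    · exact hkey2 L hu b
    · have h1 : z j * s j ∈ L := by
        rw [hL]
        exact IntermediateField.subset_adjoin ℂ _ (Or.inr ⟨j, rfl⟩)
      have h2 : s j ∈ L := by
        rw [hs']
        refine L.mul_mem (L.algebraMap_mem _) (L.prod_mem fun i _ => ?_)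
        have h3 : ρ i ∈ L := by
          rw [hρ]
          exact hkey L hu i 0
        exact pow_mem h3 _
      have h3 := L.div_mem h1 h2
      rwa [mul_div_cancel_right₀ _ (hs0 j)] at h3
  · obtain ⟨α, hα0, hα1, hα2, hv⟩ := hm
    have hxne : ∀ i j, x i j ≠ 0 := by
      intro i j
      refine Fin.cases (hx0 i) (fun l => ?_) j
      intro h0
      have h1 : uu e x (e ⟨i, l⟩) = 0 := by
        change aff x (e.symm (e ⟨i, l⟩)) = 0
        rw [e.symm_apply_apply]
        change x i l.succ / x i 0 = 0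
        rw [h0, zero_div]
      exact hbas.1.ne_zero _ h1
    have hZ' : ∀ i l, uu e x' (e ⟨i, l⟩) = x' i l.succ / x' i 0 := by
      intro i l
      change aff x' (e.symm (e ⟨i, l⟩)) = _
      rw [e.symm_apply_apply]
      rfl
    have hx'ne : ∀ i j, x' i j ≠ 0 := by
      intro i j
      refine Fin.cases (hx'0 i) (fun l => ?_) j
      intro h0
      have h1 := hZ' i l
      rw [h0, zero_div] at h1
      exact hbas'.1.ne_zero _ h1
    have hFx : ∀ i, aeval (x i) (F i) ≠ 0 := by
      intro i h0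
      have h1 : aeval (uu e x') ((hblk e hn hdF hhF' hF3).F i) =
          aeval (x' i) (F' i) / x' i 0 ^ dF i := aeval_dh e hx'0 (hhF' i)
      have h2 : aeval (uu e x') ((hblk e hn hdF hhF' hF3).F i) ≠ 0 := by
        intro h3
        exact (hblk e hn hdF hhF' hF3).F_ne i ((injective_iff_map_eq_zero _).1 hbas'.1 _ h3)
      apply h2
      rw [h1, hev, h0, mul_zero, zero_div]
    have hmin : ∀ i, minO (x i) P = minO (x' i) P := by
      intro i
      have hx'x : ∀ j, x' i j = x i j - algebraMap ℂ K (q i j) * x i (Fin.last (n i)) := by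
        intro j
        rw [hx']
        rfl
      apply le_antisymm
      · refine Finset.le_inf' _ _ fun j _ => ?_
        have h1 : Ge P (minO (x i) P) (x' i j) := by
          rw [hx'x j]
          refine Ge.sub (Or.inr (minO_le (x i) P j)) ?_
          have h2 := (ge_const P (q i j)).mul (Or.inr (minO_le (x i) P (Fin.last (n i))) :
            Ge P (minO (x i) P) (x i (Fin.last (n i))))
          simpa using h2
        exact h1.resolve_left (hx'ne i j)
      · refine Finset.le_inf' _ _ fun j _ => ?_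
        have h1 : Ge P (minO (x' i) P) (x i j) := by
          rw [hxx' i j]
          refine Ge.add (Or.inr (minO_le (x' i) P j)) ?_
          have h2 := (ge_const P (q i j)).mul (Or.inr (minO_le (x' i) P (Fin.last (n i))) :
            Ge P (minO (x' i) P) (x' i (Fin.last (n i))))
          simpa using h2
        exact h1.resolve_left (hxne i j)
    have hZo : ∀ i l, P.ord (uu e x' (e ⟨i, l⟩)) = P.ord (x' i l.succ) - P.ord (x' i 0) := by
      intro i l
      rw [hZ', P.ord_div (hx'ne i _) (hx'0 i)]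
    have hα : ∀ i, α i = minO (x' i) P - P.ord (x' i 0) := by
      intro i
      apply le_antisymm
      · obtain ⟨l, -, hl⟩ := Finset.exists_mem_eq_inf' (Finset.univ_nonempty (α := Fin (n i + 1)))
          fun j => P.ord (x' i j)
        have h0 : minO (x' i) P = P.ord (x' i l) := hl
        rw [h0]
        rcases Fin.eq_zero_or_eq_succ l with h1 | ⟨l', h1⟩
        · rw [h1, sub_self]
          exact hα0 i
        · have h2 := hα1 (e ⟨i, l'⟩)
          have h3 : (hblk e hn hdF hhF' hF3).τ (e ⟨i, l'⟩) = i := by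
            change (e.symm (e ⟨i, l'⟩)).1 = i
            rw [e.symm_apply_apply]
          rw [h3] at h2
          change α i ≤ P.ord (uu e x' (e ⟨i, l'⟩)) at h2
          rw [hZo] at h2
          rw [h1]
          exact h2
      · rcases hα2 i with h1 | ⟨b, hb, h1⟩
        · rw [h1]
          have := minO_le (x' i) P 0
          linarith
        · have hb' : (e.symm b).1 = i := hb
          subst hb'
          have h2 : P.ord (uu e x' b) = P.ord (x' (e.symm b).1 (e.symm b).2.succ) -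
              P.ord (x' (e.symm b).1 0) := by
            have h3 := hZo (e.symm b).1 (e.symm b).2
            rwa [show e ⟨(e.symm b).1, (e.symm b).2⟩ = b from e.apply_symm_apply b] at h3
          rw [h1]
          change _ ≤ P.ord (uu e x' b)
          rw [h2]
          have := minO_le (x' (e.symm b).1) P (e.symm b).2.succ
          linarith
    funext i
    have h1 : aeval (uu e x') ((hblk e hn hdF hhF' hF3).F i) =
        aeval (x' i) (F' i) / x' i 0 ^ dF i := aeval_dh e hx'0 (hhF' i)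
    have h2 := hv i
    change P.ord (aeval (uu e x') ((hblk e hn hdF hhF' hF3).F i)) = dF i * α i + v i at h2
    have hcne : algebraMap ℂ K (c i) ≠ 0 := by
      rw [Ne, map_eq_zero]
      exact hc i
    rw [h1, hev, P.ord_div (mul_ne_zero hcne (hFx i)) (pow_ne_zero _ (hx'0 i)),
      P.ord_mul hcne (hFx i), P.ord_const (hc i), zero_add, P.ord_pow, hα] at h2
    unfold mulQ
    rw [hmin]
    have h3 : P.ord (aeval (x i) (F i)) - dF i * minO (x' i) P = v i := by
      linarith
    rw [h3, Int.toNat_natCast]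

end

end Pool.Agent.Q57.GH
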