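import Pool.Agent.Q57.GH.Str
import Pool.Agent.Q57.TQ.Up

/-!
The structure of the sections of `m (K + Δ) + A`, for covers of products of projective spaces
(following `Pool.Agent.Q57.TQ.Up`).
-/

set_option autoImplicit false
set_option linter.overlappingInstances false
set_option linter.unusedSectionVars false
set_option maxHeartbeats 1000000

open FF MvPolynomial IntermediateField Pool.Agent.W603.LV Pool.Agent.W619.PQ
open Pool.Agent.W619.TW Pool.Agent.W602.GT Pool.Agent.TH122.AB Pool.Agent.TH756.PN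
open Pool.Agent.Y169.CH Pool.Agent.Y169.CH.Cvr Pool.Agent.Q57.TP Pool.Agent.Q57.TQ

namespace Pool.Agent.Q57.GH

variable {d r : ℕ} {Φ : Blk ℂ (d + 1) r} {K : Type} [Field K] [Algebra ℂ K] {R : ℕ}
  (C : Cvr Φ K R) {c : (Fin r → ℕ) → ℚ} {δ : Place ℂ K → ℚ}

/-- **The structure of the sections.** -/
theorem sec_str_d (hΦ : Smo Φ) (hcf : CoefH C c δ)
    (hmul : ∀ v (r : ℕ), 1 ≤ r → Adm C.M C.a v → 1 - c (r • v) ≤ r * (1 - c v)) {ι : Type} [Fintype ι] (T : ι → C.Dir)
    {D : Fin (d + 1) → Derivation ℂ K K} (hD : ∀ i j, D i (C.Z j) = if i = j then 1 else 0)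
    (S : Finset K) :
    ∃ (N0 : ℕ) (β : Fin N0 → K) (Q : K) (c1 : ℕ), Q ≠ 0 ∧
      ∀ (m j : ℕ) (ω : (Fin (d + 1) → Derivation ℂ K K) → K),
      SecD (d + 1) δ (pw S j) m ω →
      ∃ R : Fin N0 → MvPolynomial (Fin (d + 1)) ℂ,
        ω D * C.Lam m * Q ^ (j + 1) = ∑ i, aeval C.Y (R i) * β i ∧
        ∀ i, ∀ a ∈ (R i).support,
          (∀ t, (Φ.wbd a t : ℤ) ≤ ((Φ.D t : ℤ) - Φ.n t - 1) * m + c1 * (j + 1)) ∧
          (∀ s, (1 - c (T s).v) * m - c1 * (j + 1) ≤
            ((∑ t, ((T s).v t : ℤ) * a (Φ.c t) : ℤ) : ℚ)) := by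
  classical
  obtain ⟨K', iF, iA, iK, hT, G0, G, fG0, fG, hGG, a1, a2, a3, a4, b1, b2, b3, b4, Y, X, hY, hX,
    hYK, hXZ, hbX⟩ := exists_closure2 C.hZ C.bas_Y C.adj_le C.fin_Y
  obtain ⟨DY, hDY0⟩ := exists_dual C.bas_Y
  have hDY : ∀ i j, DY i (C.Y j) = if i = j then 1 else 0 := by
    intro i j
    have h1 := congrFun (congrFun hDY0 i) j
    rw [Matrix.of_apply, Matrix.one_apply] at h1
    exact h1
  -- the coordinates in `K'`
  have hXK' : ∀ j, (X j : K') = algebraMap K K' (C.Z j) := by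
    intro j
    rw [← hXZ, ← IsScalarTower.algebraMap_apply (fixedField G) K K']
    rfl
  have hYK' : ∀ j, (Y j : K') = algebraMap K K' (C.Y j) := by
    intro j
    rw [← hYK, ← IsScalarTower.algebraMap_apply (fixedField G0) K K']
    rfl
  have hXfun : (fun j => (X j : K')) = fun j => algebraMap K K' (C.Z j) := funext hXK'
  have hYfun : (fun j => (Y j : K')) = fun j => algebraMap K K' (C.Y j) := funext hYK'
  have hYX : ∀ b, (Y b : K') = aeval (fun j => (X j : K')) (Φ.yp b) := by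
    intro b
    rw [hYK', hXfun]
    exact (MvPolynomial.aeval_algebraMap_apply K' C.Z (Φ.yp b)).symm
  have hint : ∀ b, IsIntegral (Algebra.adjoin ℂ (Set.range fun j => (Y j : K'))) (X b : K') := by
    intro b
    rw [hXK']
    obtain ⟨p, hp, hp0⟩ := C.int_Z b
    have hle : ∀ x ∈ Algebra.adjoin ℂ (Set.range C.Y), algebraMap K K' x ∈
        Algebra.adjoin ℂ (Set.range fun j => (Y j : K')) := by
      intro x hx
      rw [Algebra.adjoin_range_eq_range_aeval] at hx ⊢
      obtain ⟨Q, rfl⟩ := hx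
      refine ⟨Q, ?_⟩
      rw [hYfun]
      exact MvPolynomial.aeval_algebraMap_apply K' C.Y Q
    let φ : Algebra.adjoin ℂ (Set.range C.Y) →+*
        Algebra.adjoin ℂ (Set.range fun j => (Y j : K')) :=
      ((algebraMap K K').comp (Algebra.adjoin ℂ (Set.range C.Y)).subtype).codRestrict
        (Algebra.adjoin ℂ (Set.range fun j => (Y j : K'))) fun x => hle x.1 x.2
    refine ⟨p.map φ, hp.map _, ?_⟩
    rw [Polynomial.eval₂_map]
    have h1 := congrArg (algebraMap K K') hp0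
    rw [map_zero, Polynomial.hom_eval₂] at h1
    exact h1
  -- the places at infinity
  choose v0 hv0 hinf using fun t => inf_d C hcf hX hXZ hD t
  choose w0 e0 I0 hw0 hI0c hI0 using fun t => exists_inertia G (v0 t)
  -- the test places
  have hpl : ∀ s : ι, ∃ v : Place ℂ (fixedField G0), ∀ P : MvPolynomial (Fin (d + 1)) ℂ, P ≠ 0 →
      v.ord (aeval Y P) =
        mord (fun b => if b = Φ.c (Φ.τ b) then (T s).lam (Φ.τ b) else 0) P := by
    intro s
    refine exists_mono hY _ ?_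
    obtain ⟨a, b, hab⟩ := (T s).hone
    have hpt : ∀ a : Fin r → ℕ, wt (fun b => if b = Φ.c (Φ.τ b) then (T s).lam (Φ.τ b) else 0)
        (Finsupp.equivFunOnFinite.symm fun b => a (Φ.τ b)) = ∑ t, (T s).lam t * a t := by
      intro a
      rw [wt_piv]
      refine Finset.sum_congr rfl fun t _ => ?_
      rw [Finsupp.coe_equivFunOnFinite_symm, Φ.hc]
    exact ⟨Finsupp.equivFunOnFinite.symm fun b => a (Φ.τ b),
      Finsupp.equivFunOnFinite.symm fun c => b (Φ.τ c), by rw [hpt, hpt, hab]⟩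
  choose vs hvs using hpl
  choose ws es Is hws hIsc hIs using fun s => exists_inertia G0 (vs s)
  obtain ⟨N0, b', Q, c1, hQ0, hC⟩ := two_str G0 G hGG Φ hX hbX hY hYX hint hv0 hw0
    (fun s b => if b = Φ.c (Φ.τ b) then (T s).lam (Φ.τ b) else 0) hvs hws
    (S.image (algebraMap K K'))
  -- the constants of `S`
  obtain ⟨c2, hc2, hc2'⟩ : ∃ c2 : ℕ, (∀ t, ∀ g ∈ G0, ∀ s ∈ S, -(c2 : ℤ) ≤
      (w0 t).ord (g (algebraMap K K' s))) ∧
      ∀ t, ∀ g ∈ G0, ∀ s ∈ S, -(c2 : ℤ) ≤ (ws t).ord (g (algebraMap K K' s)) := by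
    have hfin : ((⋃ t, Set.image2 (fun (g : K' ≃ₐ[ℂ] K') (s : K) => (w0 t).ord
        (g (algebraMap K K' s))) (G0 : Set (K' ≃ₐ[ℂ] K')) (S : Set K)) ∪
        (⋃ t, Set.image2 (fun (g : K' ≃ₐ[ℂ] K') (s : K) => (ws t).ord
        (g (algebraMap K K' s))) (G0 : Set (K' ≃ₐ[ℂ] K')) (S : Set K))).Finite :=
      (Set.finite_iUnion fun t => Set.Finite.image2 _ (Set.toFinite _) (Set.toFinite _)).union
        (Set.finite_iUnion fun t => Set.Finite.image2 _ (Set.toFinite _) (Set.toFinite _))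
    obtain ⟨M0, hM0⟩ := hfin.bddBelow
    refine ⟨M0.natAbs, fun t g hg s hs => ?_, fun t g hg s hs => ?_⟩
    · have h1 := hM0 (Or.inl (Set.mem_iUnion.2 ⟨t, Set.mem_image2_of_mem hg hs⟩))
      have h2 : -(M0.natAbs : ℤ) ≤ M0 := by omega
      exact h2.trans h1
    · have h1 := hM0 (Or.inr (Set.mem_iUnion.2 ⟨t, Set.mem_image2_of_mem hg hs⟩))
      have h2 : -(M0.natAbs : ℤ) ≤ M0 := by omega
      exact h2.trans h1
  obtain ⟨NN, hNN⟩ : ∃ NN : ℕ, NN = ∑ s, (T s).N := ⟨_, rfl⟩
  have hNle : ∀ s, (T s).N ≤ NN := by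
    intro s
    rw [hNN]
    exact Finset.single_le_sum (f := fun s => (T s).N) (fun _ _ => Nat.zero_le _)
      (Finset.mem_univ s)
  -- the projection to `K`
  obtain ⟨π, hπ⟩ := (IsScalarTower.toAlgHom (fixedField G0) K K').toLinearMap.exists_leftInverse_of_injective
    (LinearMap.ker_eq_bot.2 (algebraMap K K').injective)
  have hπ' : ∀ z : K, π (algebraMap K K' z) = z := fun z => LinearMap.congr_fun hπ z
  have hYae : ∀ P : MvPolynomial (Fin (d + 1)) ℂ, aeval C.Y P =
      algebraMap (fixedField G0) K (aeval Y P) := by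
    intro P
    have h3 : C.Y = fun j => algebraMap (fixedField G0) K (Y j) := funext fun j => (hYK j).symm
    rw [h3]
    exact MvPolynomial.aeval_algebraMap_apply K Y P
  refine ⟨N0, fun i => π (b' i), aeval C.Z Q, (NN + 1) * (c1 + c2 + 1), C.ae_ne hQ0,
    fun m j ω hsec => ?_⟩
  have hcK' : Function.Injective (algebraMap K K') := (algebraMap K K').injective
  -- from `K` to `K'`
  have hS' : ∀ s' ∈ pw S j, algebraMap K K' s' ∈ pw (S.image (algebraMap K K')) j := by
    intro s' hs'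
    obtain ⟨s, hs, rfl⟩ := mem_pw.1 hs'
    rw [map_pow]
    exact mem_pw.2 ⟨_, Finset.mem_image_of_mem _ hs, rfl⟩
  have hfine : Fine G X (pw (S.image (algebraMap K K')) j) (algebraMap K K' (ω D * C.Lam m)) := by
    -- the places of the irreducible polynomials
    intro p hp v hvp hv
    obtain ⟨w, e, I, hwv, hcard, hI⟩ := exists_inertia G v
    refine ⟨w, e, hwv, fun g hg => ?_⟩
    obtain ⟨P, e1, e2, h1, h2, he⟩ := exists_restr (K := K) (over_comp hwv hg)
    have hcase : e2 = 1 ∨ ∃ t, p ∣ Φ.F t := by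
      by_cases hex : ∃ t, p ∣ Φ.F t
      · exact Or.inr hex
      left
      push Not at hex
      refine C.ramG hXZ hwv hI hcard hg h1 he fun i => ?_
      have h3 : ¬ p ∣ C.pb i := by
        unfold Cvr.pb
        intro h4
        obtain ⟨t, -, ht⟩ := (Prime.dvd_finsetProd_iff hp.prime _).1 h4
        exact hex t (hp.prime.dvd_of_dvd_pow ht)
      rw [(hv _ (C.pb_ne i)).2.2 h3]
      exact dvd_zero _
    rcases adic_d C hcf hX hXZ hD hp hvp hv h2 hcase hsec with h3 | ⟨s', hs', hs0, hle⟩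
    · left
      rw [h3, map_zero]
    · right
      refine ⟨algebraMap K K' s', hS' s' hs', by simpa using hs0, ?_⟩
      rw [← Place.comp_ord, ← Place.comp_ord, h1.2, h1.2]
      exact mul_le_mul_of_nonneg_left hle (by positivity)
  have hinf' : ∀ t, ∀ g ∈ G, Ge (w0 t) (- (e0 t * (((Φ.D t : ℤ) - Φ.n t - 1) * m + c2 * j)))
      (g (algebraMap K K' (ω D * C.Lam m))) := by
    -- the places at infinity
    intro t g hg
    obtain ⟨P, e1, e2, h1, h2, he⟩ := exists_restr (K := K) (over_comp (hw0 t) hg)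
    have he2 : e2 = 1 := by
      refine C.ramG hXZ (hw0 t) (hI0 t) (hI0c t) hg h1 he fun i => ?_
      rw [Cvr.pb, map_prod, ord_prod' (v0 t) Finset.univ _ fun s _ => by
        rw [map_pow]
        exact pow_ne_zero _ (hX.ne (Φ.F_ne s))]
      refine Finset.dvd_sum fun s _ => ?_
      rw [map_pow, (v0 t).ord_pow, hv0 t _ (Φ.F_ne s), Φ.degB_F]
      split_ifs with hst
      · subst hst
        rw [mul_neg, dvd_neg]
        exact_mod_cast C.hdiv i s
      · simp
    subst he2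
    rcases hinf t P h2 (pw S j) m ω hsec with h3 | ⟨s', hs', hs0, hle⟩
    · left
      rw [h3, map_zero, map_zero]
    · right
      obtain ⟨s, hs, rfl⟩ := mem_pw.1 hs'
      have h4 := hc2 t g (hGG hg) s hs
      rw [← Place.comp_ord, h1.2] at h4
      rw [← Place.comp_ord, h1.2]
      rw [P.ord_pow] at hle
      have h5 : (e0 t : ℤ) = e1 := by
        rw [he]
        push_cast
        ring
      rw [h5]
      have h6 : (e1 : ℤ) * (j * P.ord s) ≤ e1 * (P.ord (ω D * C.Lam m) +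
        ((Φ.D t : ℤ) - Φ.n t - 1) * m) := mul_le_mul_of_nonneg_left hle (by positivity)
      have h7 : (j : ℤ) * (-(c2 : ℤ)) ≤ j * (e1 * P.ord s) :=
        mul_le_mul_of_nonneg_left h4 (by positivity)
      have h8 : (1 : ℤ) ≤ e1 := by exact_mod_cast h1.1
      have h9 : (0 : ℤ) ≤ c2 * j := by positivity
      have h10 : (c2 : ℤ) * j ≤ e1 * (c2 * j) := by nlinarith
      nlinarith
  have htest : ∀ s, ∀ g ∈ G0, Ge (ws s)
      (⌈((es s : ℚ) * m * (1 - c (T s).v)) / (T s).N⌉ - c2 * j)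
      (g (algebraMap K K' (ω D * C.Lam m))) := by
    -- the test places
    intro s g hg
    obtain ⟨P, e1, e2, h1, h2, he⟩ := exists_restr (K := K) (over_comp (hws s) hg)
    obtain ⟨t0, ht0⟩ := Dir.ne C (T s)
    obtain ⟨hdvd, hreg⟩ := C.ramT hΦ hY hYK hDY (T s).lam (hvs s) (hws s) (hIs s) (hIsc s) hg h1 h2
      he (N := (T s).N) fun i => by
        have := (T s).hT i
        simpa only [(T s).hv] using this
    obtain ⟨r', hr1, hNr, hTv, hvv0⟩ := exists_mulH C (T s) h2.1 hdvd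
    have hadm : Adm C.M C.a (fun t => e2 * (T s).lam t) := by
      refine ⟨hvv0, fun j => ?_⟩
      exact div_adm C hYK (T s).lam (hvs s) h2 j
    have hbr : 1 - c (T s).v ≤ r' * (1 - c fun t => e2 * (T s).lam t) := by
      rw [hTv]
      exact hmul _ r' hr1 hadm
    rcases test_d C hcf hY hYK hD hDY (T s).lam ht0 (hvs s) h2 hreg hsec with
      h3 | ⟨s', hs', hs0, hle⟩
    · left
      rw [h3, map_zero, map_zero]
    · right
      obtain ⟨s0, hs, rfl⟩ := mem_pw.1 hs'
      have h4 := hc2' s g hg s0 hs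
      rw [← Place.comp_ord, h1.2] at h4
      rw [← Place.comp_ord, h1.2]
      rw [P.ord_pow] at hle
      obtain ⟨Q, hQ⟩ : ∃ Q : ℤ, Q = P.ord (ω D * C.Lam m) := ⟨_, rfl⟩
      rw [← hQ] at hle ⊢
      have hN0 : (0 : ℚ) < (T s).N := by exact_mod_cast (T s).hN
      have he1 : (0 : ℚ) ≤ e1 := by positivity
      have h5 := mul_le_mul_of_nonneg_left hle he1
      have h7 : (j : ℤ) * (-(c2 : ℤ)) ≤ j * (e1 * P.ord s0) :=
        mul_le_mul_of_nonneg_left h4 (by positivity)
      have h7' : (j : ℚ) * (-(c2 : ℚ)) ≤ j * (e1 * P.ord s0) := by exact_mod_cast h7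
      have h8 : ((es s : ℚ) * m * (1 - c (T s).v)) / (T s).N ≤
          e1 * m * (1 - c fun t => e2 * (T s).lam t) := by
        rw [div_le_iff₀ hN0, he, hNr]
        push_cast
        have h9 : (0 : ℚ) ≤ e1 * m * e2 := by positivity
        have h10 := mul_le_mul_of_nonneg_left hbr h9
        linarith
      have h12 : ⌈((es s : ℚ) * m * (1 - c (T s).v)) / (T s).N⌉ ≤ e1 * Q + c2 * j := by
        rw [Int.ceil_le]
        push_cast at h5 h7' ⊢
        linarith
      linarith
  obtain ⟨R, hR, hRs⟩ := hC j (fun t => ((Φ.D t : ℤ) - Φ.n t - 1) * m + c2 * j)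
    (fun s => ⌈((es s : ℚ) * m * (1 - c (T s).v)) / (T s).N⌉ - c2 * j)
    (algebraMap K K' (ω D * C.Lam m)) hfine hinf' htest
  refine ⟨R, ?_, ?_⟩
  · have h1 := congrArg π hR
    obtain ⟨z0, hz0⟩ : ∃ z0, z0 = ω D * C.Lam m := ⟨_, rfl⟩
    rw [← hz0] at h1 ⊢
    have h2 : algebraMap K K' z0 * aeval (fun j => (X j : K')) Q ^ (j + 1) =
        algebraMap K K' (z0 * aeval C.Z Q ^ (j + 1)) := by
      rw [map_mul, map_pow, hXfun]
      congr 2
      exact MvPolynomial.aeval_algebraMap_apply K' C.Z Q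
    rw [h2, hπ'] at h1
    rw [h1, map_sum]
    refine Finset.sum_congr rfl fun i _ => ?_
    have h3 : ((aeval Y (R i) : fixedField G0) : K') * b' i =
        (aeval Y (R i) : fixedField G0) • b' i := by
      rw [Algebra.smul_def]
      rfl
    rw [h3, map_smul, Algebra.smul_def, hYae]
  · -- the exponents
    intro i a ha
    obtain ⟨ha1, ha2⟩ := hRs i a ha
    refine ⟨fun t => (ha1 t).trans ?_, fun s => ?_⟩
    · have h1 : (0 : ℤ) ≤ (c2 : ℤ) := by positivity
      have h2 : (c2 * j + c1 * (j + 1) : ℤ) ≤ ((NN + 1) * (c1 + c2 + 1) : ℕ) * (j + 1) := by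
        push_cast
        have h3 : (0 : ℤ) ≤ NN * (c1 + c2 + 1) * (j + 1) := by positivity
        have h4 : (0 : ℤ) ≤ (c2 + j + 1 : ℤ) := by positivity
        nlinarith
      linarith
    · have h1 := ha2 s
      rw [wt_piv] at h1
      have hN0 : (0 : ℚ) < (T s).N := by exact_mod_cast (T s).hN
      have hes : (1 : ℚ) ≤ es s := by exact_mod_cast (hws s).1
      obtain ⟨W, hW⟩ : ∃ W : ℤ, W = ((∑ t, (T s).lam t * a (Φ.c t) : ℕ) : ℤ) := ⟨_, rfl⟩
      have hsum : ∑ t, ((T s).v t : ℤ) * a (Φ.c t) = (T s).N * W := by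
        rw [hW]
        push_cast
        rw [Finset.mul_sum]
        refine Finset.sum_congr rfl fun t _ => ?_
        rw [(T s).hv]
        push_cast
        ring
      rw [hsum]
      rw [← hW] at h1
      have h2 : ⌈((es s : ℚ) * m * (1 - c (T s).v)) / (T s).N⌉ ≤
          es s * W + c2 * j + c1 * (j + 1) := by
        linarith
      rw [Int.ceil_le, div_le_iff₀ hN0] at h2
      push_cast at h2 ⊢
      have h4 : (es s : ℚ) * (m * (1 - c (T s).v) - (T s).N * W) ≤
          (c2 * j + c1 * (j + 1)) * (T s).N := by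
        nlinarith
      have h5 : (m : ℚ) * (1 - c (T s).v) - (T s).N * W ≤ (c2 * j + c1 * (j + 1)) * (T s).N := by
        by_cases h6 : (m : ℚ) * (1 - c (T s).v) - (T s).N * W ≤ 0
        · exact h6.trans (by positivity)
        · push Not at h6
          nlinarith
      have h6 : ((T s).N : ℚ) ≤ NN := by exact_mod_cast hNle s
      have h7 : (c2 * j + c1 * (j + 1) : ℚ) * (T s).N ≤ (c2 * j + c1 * (j + 1)) * NN :=
        mul_le_mul_of_nonneg_left h6 (by positivity)
      have h8 : (c2 * j + c1 * (j + 1) : ℚ) * NN ≤ ((NN + 1) * (c1 + c2 + 1)) * (j + 1) := by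
        have h9 : (c2 * j + c1 * (j + 1) : ℚ) ≤ (c1 + c2 + 1) * (j + 1) := by
          have : (0 : ℚ) ≤ (c2 + j + 1 : ℚ) := by positivity
          nlinarith
        calc (c2 * j + c1 * (j + 1) : ℚ) * NN ≤ ((c1 + c2 + 1) * (j + 1)) * NN :=
              mul_le_mul_of_nonneg_right h9 (by positivity)
          _ ≤ _ := by
            have : (0 : ℚ) ≤ (c1 + c2 + 1) * (j + 1) := by positivity
            nlinarith
      linarith

end Pool.Agent.Q57.GH
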