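import Pool.Agent.Q57.GH.Cvr
import Pool.Agent.Q57.GH.Sec

/-!
The sections of the lattice points, for covers of products of projective spaces.
-/

set_option autoImplicit false
set_option linter.overlappingInstances false
set_option linter.unusedSectionVars false
set_option maxHeartbeats 1000000

open FF MvPolynomial Pool.Agent.W603.LV Pool.Agent.W602.GT Pool.Agent.W602.Cov
open Pool.Agent.TH756.PR Pool.Agent.TH122.AB Pool.Agent.TH756.PN
open Pool.Agent.Y169.CH Pool.Agent.Q57.TP Pool.Agent.Q57.TQ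

namespace Pool.Agent.Q57.GH

variable {r R N' : ℕ} {n : Fin r → ℕ} {K : Type} [Field K] [Algebra ℂ K]
  {e : ((i : Fin r) × Fin (n i)) ≃ Fin (N' + 1)} {Φ : Blk ℂ (N' + 1) r} {C : Cvr Φ K R}
  {dF : Fin r → ℕ} {x : ∀ i, Fin (n i + 1) → K} {F : ∀ i, MvPolynomial (Fin (n i + 1)) ℂ}
  {c : (Fin r → ℕ) → ℚ} {δ : Place ℂ K → ℚ}

/-- homogeneous coordinates -/
structure Mon (e : ((i : Fin r) × Fin (n i)) ≃ Fin (N' + 1)) (C : Cvr Φ K R) (dF : Fin r → ℕ)
    (x : ∀ i, Fin (n i + 1) → K) (F : ∀ i, MvPolynomial (Fin (n i + 1)) ℂ) : Prop where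
  hn : ∀ i, 1 ≤ n i
  hx : ∀ i j, x i j ≠ 0
  hs : ∀ i, SmF (F i)
  hh : ∀ i, (F i).IsHomogeneous (dF i)
  hFx : ∀ i, aeval (x i) (F i) ≠ 0
  hZ : C.Z = uu e x
  hFZ : ∀ t, aeval C.Z (Φ.F t) = aeval (x t) (F t) / x t 0 ^ dF t
  hτ : ∀ b, Φ.τ b = (e.symm b).1
  hΦn : ∀ t, Φ.n t = n t
  hΦD : ∀ t, Φ.D t = dF t

/-- the data at a place -/
structure DatH (P : Place ℂ K) (dF : Fin r → ℕ) (x : ∀ i, Fin (n i + 1) → K)
    (F : ∀ i, MvPolynomial (Fin (n i + 1)) ℂ) (α : Fin r → ℤ) (l : ∀ i, Fin (n i + 1))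
    (v : Fin r → ℕ) : Prop where
  h1 : ∀ i j, α i ≤ P.ord (x i j)
  h2 : ∀ i, P.ord (x i (l i)) = α i
  hv : ∀ i, P.ord (aeval (x i) (F i)) = dF i * α i + v i

theorem Mon.ordZ (H : Mon e C dF x F) (P : Place ℂ K) (b : Fin (N' + 1)) :
    P.ord (C.Z b) = P.ord (x (e.symm b).1 (e.symm b).2.succ) - P.ord (x (e.symm b).1 0) := by
  rw [H.hZ]
  change P.ord (x (e.symm b).1 (e.symm b).2.succ / x (e.symm b).1 0) = _
  rw [P.ord_div (H.hx _ _) (H.hx _ _)]

theorem Mon.ordF (H : Mon e C dF x F) (P : Place ℂ K) (t : Fin r) :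
    P.ord (aeval C.Z (Φ.F t)) = P.ord (aeval (x t) (F t)) - dF t * P.ord (x t 0) := by
  rw [H.hFZ, P.ord_div (H.hFx t) (pow_ne_zero _ (H.hx t 0)), P.ord_pow]

theorem Mon.exists_dat (H : Mon e C dF x F) (P : Place ℂ K) :
    ∃ (α : Fin r → ℤ) (l : ∀ i, Fin (n i + 1)) (v : Fin r → ℕ), DatH P dF x F α l v := by
  classical
  have hmin : ∀ i, ∃ j : Fin (n i + 1), ∀ l, P.ord (x i j) ≤ P.ord (x i l) := by
    intro i
    obtain ⟨j, -, hj⟩ := Finset.exists_min_image Finset.univ (fun l => P.ord (x i l))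
      ⟨(0 : Fin (n i + 1)), Finset.mem_univ _⟩
    exact ⟨j, fun l => hj l (Finset.mem_univ l)⟩
  choose j hj using hmin
  obtain ⟨α, hα⟩ : ∃ α : Fin r → ℤ, α = fun i => P.ord (x i (j i)) := ⟨_, rfl⟩
  have hα1 : ∀ i l, α i ≤ P.ord (x i l) := fun i l => by
    rw [hα]
    exact hj i l
  have hv : ∀ i, ∃ v : ℕ, P.ord (aeval (x i) (F i)) = dF i * α i + v := by
    intro i
    have h1 : aeval (x i) (F i) = x i (j i) ^ dF i *
        aeval (fun l => x i l / x i (j i)) (F i) := by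
      rw [← aeval_smul_form (H.hh i)]
      congr 2
      funext l
      rw [mul_div_cancel₀ _ (H.hx i _)]
    have h2 : aeval (fun l => x i l / x i (j i)) (F i) ≠ 0 := by
      intro h0
      rw [h0, mul_zero] at h1
      exact H.hFx i h1
    have h3 : P.Reg (aeval (fun l => x i l / x i (j i)) (F i)) := by
      refine reg_aeval (fun l => Or.inr ?_) _
      rw [P.ord_div (H.hx i l) (H.hx i _)]
      linarith [hj i l]
    have h4 := h3.resolve_left h2
    refine ⟨(P.ord (aeval (fun l => x i l / x i (j i)) (F i))).toNat, ?_⟩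
    rw [Int.toNat_of_nonneg h4, h1, P.ord_mul (pow_ne_zero _ (H.hx i _)) h2, P.ord_pow, hα]
  choose v hv using hv
  exact ⟨α, j, v, hα1, fun i => by rw [hα], hv⟩

theorem DatH.ordF (H : Mon e C dF x F) {P : Place ℂ K} {α : Fin r → ℤ} {l : ∀ i, Fin (n i + 1)}
    {v : Fin r → ℕ} (h : DatH P dF x F α l v) (t : Fin r) :
    P.ord (aeval C.Z (Φ.F t)) = dF t * (α t - P.ord (x t 0)) + v t := by
  rw [H.ordF, h.hv]
  ring

theorem DatH.multH (H : Mon e C dF x F) {P : Place ℂ K} {α : Fin r → ℤ}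
    {l : ∀ i, Fin (n i + 1)} {v : Fin r → ℕ} (h : DatH P dF x F α l v) : MultH C P v := by
  refine ⟨fun t => α t - P.ord (x t 0), fun t => ?_, fun b => ?_, fun t => ?_, fun t => ?_⟩
  · linarith [h.h1 t 0]
  · rw [H.ordZ, H.hτ]
    linarith [h.h1 (e.symm b).1 (e.symm b).2.succ]
  · rcases Fin.eq_zero_or_eq_succ (l t) with h1 | ⟨l', h1⟩
    · left
      have h2 := h.h2 t
      rw [h1] at h2
      linarith
    · right
      refine ⟨e ⟨t, l'⟩, by rw [H.hτ, e.symm_apply_apply], ?_⟩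
      have h2 := h.h2 t
      rw [h1] at h2
      rw [H.ordZ, e.symm_apply_apply, h2]
  · rw [h.ordF H, H.hΦD]

theorem DatH.adm (H : Mon e C dF x F) {P : Place ℂ K} {α : Fin r → ℤ}
    {l : ∀ i, Fin (n i + 1)} {v : Fin r → ℕ} (h : DatH P dF x F α l v) (hv : v ≠ 0) :
    Adm C.M C.a v := by
  refine ⟨hv, fun j => ?_⟩
  have h1 := congrArg P.ord (C.hz j)
  rw [P.ord_pow, ord_prod' P Finset.univ _ fun i _ => pow_ne_zero _ (C.F_ne i)] at h1
  have h2 : ∀ i, P.ord (aeval C.Z (Φ.F i) ^ C.a j i) =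
      ((C.a j i * Φ.D i : ℕ) : ℤ) * (α i - P.ord (x i 0)) + ((C.a j i * v i : ℕ) : ℤ) := by
    intro i
    rw [P.ord_pow, h.ordF H, H.hΦD]
    push_cast
    ring
  rw [Finset.sum_congr rfl fun i _ => h2 i, Finset.sum_add_distrib] at h1
  have h3 : (C.M j : ℤ) ∣ ∑ i, ((C.a j i * Φ.D i : ℕ) : ℤ) * (α i - P.ord (x i 0)) :=
    Finset.dvd_sum fun i _ => Dvd.dvd.mul_right (by exact_mod_cast C.hdiv j i) _
  have h4 : (C.M j : ℤ) ∣ ∑ i, ((C.a j i * v i : ℕ) : ℤ) := by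
    have h5 : ∑ i, ((C.a j i * v i : ℕ) : ℤ) = C.M j * P.ord (C.z j) -
        ∑ i, ((C.a j i * Φ.D i : ℕ) : ℤ) * (α i - P.ord (x i 0)) := by
      rw [h1]
      ring
    rw [h5]
    exact dvd_sub (dvd_mul_right _ _) h3
  exact_mod_cast h4

/-- the function of a lattice point -/
noncomputable def fH (dF : Fin r → ℕ) (x : ∀ i, Fin (n i + 1) → K)
    (F : ∀ i, MvPolynomial (Fin (n i + 1)) ℂ) (m : ℕ) (y : Fin r → ℤ)
    (l : ∀ i, Fin (n i + 1)) : K :=
  ∏ i, (aeval (x i) (F i) ^ (y i - m) * x i (l i) ^ (((dF i : ℤ) - n i - 1) * m - dF i * y i))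

theorem fH_ne (H : Mon e C dF x F) (m : ℕ) (y : Fin r → ℤ) (l : ∀ i, Fin (n i + 1)) :
    fH dF x F m y l ≠ 0 :=
  Finset.prod_ne_zero_iff.2 fun i _ => mul_ne_zero (zpow_ne_zero _ (H.hFx i))
    (zpow_ne_zero _ (H.hx i _))

/-- the section of a lattice point -/
noncomputable def sH (e : ((i : Fin r) × Fin (n i)) ≃ Fin (N' + 1)) (dF : Fin r → ℕ)
    (x : ∀ i, Fin (n i + 1) → K) (F : ∀ i, MvPolynomial (Fin (n i + 1)) ℂ) (m : ℕ)
    (y : Fin r → ℤ) (l : ∀ i, Fin (n i + 1)) (D : Fin (N' + 1) → Derivation ℂ K K) : K :=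
  om e D x ^ m * fH dF x F m y l

theorem ord_fH (H : Mon e C dF x F) {P : Place ℂ K} {α : Fin r → ℤ}
    {l' : ∀ i, Fin (n i + 1)} {v : Fin r → ℕ} (h : DatH P dF x F α l' v) (m : ℕ) (y : Fin r → ℤ)
    (l : ∀ i, Fin (n i + 1)) :
    P.ord (fH dF x F m y l) = ∑ i, ((y i - m) * (dF i * α i + v i) +
      (((dF i : ℤ) - n i - 1) * m - dF i * y i) * P.ord (x i (l i))) := by
  unfold fH
  rw [ord_prod' P Finset.univ _ fun i _ => mul_ne_zero (zpow_ne_zero _ (H.hFx i))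
    (zpow_ne_zero _ (H.hx i _))]
  refine Finset.sum_congr rfl fun i _ => ?_
  rw [P.ord_mul (zpow_ne_zero _ (H.hFx i)) (zpow_ne_zero _ (H.hx i _)), P.ord_zpow, P.ord_zpow,
    h.hv]

theorem sH_sec (H : Mon e C dF x F) (hcf : CoefH C c δ) {m : ℕ} {y : Fin r → ℤ}
    (hy : ∀ i, dF i * y i ≤ ((dF i : ℤ) - n i - 1) * m)
    (hadm : ∀ v, Adm C.M C.a v → (m : ℚ) * (1 - c v) ≤ ((∑ k, (v k : ℤ) * y k : ℤ) : ℚ))
    (l : ∀ i, Fin (n i + 1)) : BSec (N' + 1) δ {1} m 1 (sH e dF x F m y l) := by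
  classical
  refine ⟨?_, ?_⟩
  · intro A D
    unfold sH
    rw [om_lin, mul_pow]
    ring
  · intro P _ D hD
    obtain ⟨α, l', v, h⟩ := H.exists_dat P
    have hom := om_ord e H.hn P D hD H.hx (by rw [← H.hZ]; exact C.hZ) H.hs H.hh H.hFx α h.h1 l'
      h.h2 v h.hv
    have h2 := (hom.pow m).mul (ge_ord P (fH dF x F m y l))
    unfold sH
    rcases h2 with h2 | h2
    · exact Or.inl h2
    · right
      refine ⟨1, by simp, one_ne_zero, ?_⟩
      rw [P.ord_one, hcf.hδ P v (h.multH H)]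
      have h3 : ∑ i, (-(((n i : ℤ) + 1) * α i * m) + (y i - m) * v i) ≤ P.ord (fH dF x F m y l) := by
        rw [ord_fH H h]
        refine Finset.sum_le_sum fun i _ => ?_
        have h4 := mul_le_mul_of_nonneg_left (h.h1 i (l i)) (sub_nonneg.2 (hy i))
        linarith
      rw [Finset.sum_add_distrib] at h3
      have h5 : ∑ i, -(((n i : ℤ) + 1) * α i * m) = -(m * ∑ i, ((n i : ℤ) + 1) * α i) := by
        rw [Finset.sum_neg_distrib, Finset.mul_sum]
        congr 1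
        exact Finset.sum_congr rfl fun i _ => by ring
      have h6 : ∑ i, (y i - m) * (v i : ℤ) = ∑ i, (v i : ℤ) * y i - m * ∑ i, (v i : ℤ) := by
        rw [Finset.mul_sum, ← Finset.sum_sub_distrib]
        exact Finset.sum_congr rfl fun i _ => by ring
      rw [h5, h6] at h3
      have h7 : (m : ℤ) * (∑ i, ((n i : ℤ) + 1) * α i + ∑ i, (v i : ℤ) - (if v = 0 then 0 else 1)) +
          (-(m * ∑ i, ((n i : ℤ) + 1) * α i) + (∑ i, (v i : ℤ) * y i - m * ∑ i, (v i : ℤ))) ≤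
          P.ord (om e D x ^ m * fH dF x F m y l) := by linarith
      have h8 : (∑ i, (v i : ℤ) * y i) - m * (if v = 0 then (0 : ℤ) else 1) ≤
          P.ord (om e D x ^ m * fH dF x F m y l) := by
        refine le_trans (le_of_eq ?_) h7
        ring
      have h4 : (m : ℚ) * ((if v = 0 then 0 else 1) - c v) ≤
          ((∑ k, (v k : ℤ) * y k : ℤ) : ℚ) := by
        by_cases hv : v = 0
        · rw [if_pos hv, hv, hcf.h0]
          simp
        · rw [if_neg hv]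
          exact hadm v (h.adm H hv)
      have h9 : (((if v = 0 then (0 : ℤ) else 1) : ℤ) : ℚ) = if v = 0 then 0 else 1 := by
        split_ifs <;> simp
      have h10 := (Int.cast_le (R := ℚ)).2 h8
      rw [Int.cast_sub, Int.cast_mul, h9] at h10
      push_cast at h4 h10 ⊢
      linarith

/-- a pluricanonical form in terms of its value on the dual vector fields -/
theorem pluri_eqH (H : Mon e C dF x F) {D0 : Fin (N' + 1) → Derivation ℂ K K}
    (hD0 : ∀ i j, D0 i (C.Z j) = if i = j then 1 else 0) {m : ℕ}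
    {ω : (Fin (N' + 1) → Derivation ℂ K K) → K} (hω : IsPluri m ω)
    (D : Fin (N' + 1) → Derivation ℂ K K) :
    ω D * (∏ i, x i 0 ^ (n i + 1)) ^ m = om e D x ^ m * ω D0 := by
  have h1 : D = fun i => ∑ b, D i (C.Z b) • D0 b := by
    funext i
    apply der_ext' C.hZ
    intro j
    rw [sum_der, Finset.sum_eq_single j]
    · rw [hD0, if_pos rfl, mul_one]
    · intro b _ hb
      rw [hD0, if_neg hb, mul_zero]
    · intro hj
      exact absurd (Finset.mem_univ _) hj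
  have h2 : ω D = (Matrix.of fun i j => D i (C.Z j)).det ^ m * ω D0 := by
    conv_lhs => rw [h1]
    exact hω (Matrix.of fun i b => D i (C.Z b)) D0
  rw [h2]
  unfold om
  rw [← H.hZ, mul_pow]
  ring

end Pool.Agent.Q57.GH
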