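import Pool.Agent.Y169.CH.TwoB
import Pool.Agent.Q57.GM.Str

/-!
The structure of the functions with bounded poles, for two nested groups
(following `Pool.Agent.Y169.CH.TwoB`).
-/

set_option autoImplicit false
set_option linter.overlappingInstances false
set_option linter.unusedSectionVars false
set_option maxHeartbeats 1000000

open FF MvPolynomial IntermediateField Pool.Agent.W603.LV Pool.Agent.W619.PQ
open Pool.Agent.TH122.AB Pool.Agent.TH756.PN Pool.Agent.Y169.CH Pool.Agent.Q57.GM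

namespace Pool.Agent.Q57.GH

section

variable {k K : Type} [Field k] [CharZero k] [Field K] [Algebra k K] {d r : ℕ}

/-- **The structure.** -/
theorem two_str (G0 G : Subgroup (K ≃ₐ[k] K)) [Finite G0] [Finite G] (hGG : G ≤ G0)
    (Φ : Blk k (d + 1) r) {X : Fin (d + 1) → fixedField G} (hX : Gens (k := k) X)
    (hZ : IsTranscendenceBasis k fun j => (X j : K))
    {Y : Fin (d + 1) → fixedField G0} (hY : Gens (k := k) Y)
    (hYX : ∀ b, (Y b : K) = aeval (fun j => (X j : K)) (Φ.yp b))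
    (hint : ∀ b, IsIntegral (Algebra.adjoin k (Set.range fun j => (Y j : K))) (X b : K))
    {v0 : Fin r → Place k (fixedField G)}
    (hv0 : ∀ t, ∀ P : MvPolynomial (Fin (d + 1)) k, P ≠ 0 →
      (v0 t).ord (aeval X P) = - (degB (Finset.univ.filter fun b => Φ.τ b = t) P : ℤ))
    {w0 : Fin r → Place k K} {e0 : Fin r → ℕ} (h0 : ∀ t, Over (w0 t) (v0 t) (e0 t))
    {ι : Type} [Fintype ι] (lam : ι → Fin (d + 1) → ℕ) {vs : ι → Place k (fixedField G0)}
    (hvs : ∀ s, ∀ P : MvPolynomial (Fin (d + 1)) k, P ≠ 0 →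
      (vs s).ord (aeval Y P) = mord (lam s) P)
    {ws : ι → Place k K} {es : ι → ℕ} (hs : ∀ s, Over (ws s) (vs s) (es s)) (S : Finset K) :
    ∃ (δ : ℕ) (b' : Fin δ → K) (Q : MvPolynomial (Fin (d + 1)) k) (c : ℕ), Q ≠ 0 ∧
      ∀ (j : ℕ) (D : Fin r → ℤ) (M : ι → ℤ) (f : K), Fine G X (pw S j) f →
      (∀ t, ∀ g ∈ G, Ge (w0 t) (- (e0 t * D t)) (g f)) →
      (∀ s, ∀ g ∈ G0, Ge (ws s) (M s) (g f)) →
      ∃ R : Fin δ → MvPolynomial (Fin (d + 1)) k,
        f * aeval (fun j => (X j : K)) Q ^ (j + 1) =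
          ∑ i, ((aeval Y (R i) : fixedField G0) : K) * b' i ∧
        ∀ i, ∀ a ∈ (R i).support, (∀ t, (Φ.wbd a t : ℤ) ≤ D t + c * (j + 1)) ∧
          (∀ s, M s - c * (j + 1) ≤ es s * wt (lam s) a) := by
  classical
  have hGal : IsGaloisGroup G0 (fixedField G0) K := isGaloisGroup_fixed G0
  have hfd : FiniteDimensional (fixedField G0) K := IsGaloisGroup.finiteDimensional G0 _ K
  have hfix : ∀ g ∈ G, ∀ z : fixedField G, g (z : K) = z := fun g hg z => z.2 ⟨g, hg⟩
  have hcK : CharZero K := charZero_of_injective_algebraMap (algebraMap k K).injective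
  let Z : Fin (d + 1) → K := fun j => (X j : K)
  have hXZ : ∀ P : MvPolynomial (Fin (d + 1)) k, ((aeval X P : fixedField G) : K) = aeval Z P :=
    fun P => (aeval_fix X P).symm
  let b := Module.finBasis (fixedField G0) K
  let δ := Module.finrank (fixedField G0) K
  obtain ⟨b', hb'⟩ := exists_dual_tr G0 b
  obtain ⟨c1, hc1⟩ := tr_W G0 Φ hY hYX hint
  -- a common denominator
  obtain ⟨Q, hQ0, hQS, hQb⟩ : ∃ Q : MvPolynomial (Fin (d + 1)) k, Q ≠ 0 ∧
      (∀ s ∈ S, ∀ g ∈ G, ∀ w : Place k K, (∀ P : MvPolynomial (Fin (d + 1)) k, w.Reg (aeval Z P)) →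
        w.Reg (aeval Z Q * g s)) ∧
      (∀ i, ∀ g ∈ G, ∀ w : Place k K, (∀ P : MvPolynomial (Fin (d + 1)) k, w.Reg (aeval Z P)) →
        w.Reg (aeval Z Q * g (b i))) := by
    have hGfin : (G : Set (K ≃ₐ[k] K)).Finite := Set.toFinite _
    let T : Finset K := (hGfin.toFinset.biUnion fun g => S.image fun s => g s) ∪
      (hGfin.toFinset.biUnion fun g => Finset.univ.image fun i => g (b i))
    choose q hq0 hq using fun z : K => exists_mult hZ z
    have hmain : ∀ z ∈ T, ∀ w : Place k K, (∀ P : MvPolynomial (Fin (d + 1)) k, w.Reg (aeval Z P)) →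
        w.Reg (aeval Z (∏ t ∈ T, q t) * z) := by
      intro z hz w hw
      rw [← Finset.mul_prod_erase T q hz, map_mul, mul_comm (aeval Z (q z)), mul_assoc]
      exact w.reg_mul (hw _) (reg_of_int hw (hq z))
    refine ⟨∏ t ∈ T, q t, Finset.prod_ne_zero_iff.2 fun t _ => hq0 t, ?_, ?_⟩
    · intro s hs g hg w hw
      refine hmain _ ?_ w hw
      refine Finset.mem_union_left _ (Finset.mem_biUnion.2 ⟨g, by simpa using hg, ?_⟩)
      exact Finset.mem_image_of_mem _ hs
    · intro i g hg w hw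
      refine hmain _ ?_ w hw
      refine Finset.mem_union_right _ (Finset.mem_biUnion.2 ⟨g, by simpa using hg, ?_⟩)
      exact Finset.mem_image_of_mem _ (Finset.mem_univ i)
  have hQK : aeval Z Q ≠ 0 := by
    rw [← hXZ]
    have := hX.ne hQ0
    simpa using this
  have hgQ : ∀ g ∈ G, g (aeval Z Q) = aeval Z Q := by
    intro g hg
    rw [← hXZ]
    exact hfix g hg _
  -- the constants at the places
  obtain ⟨c0, hc0, hc0'⟩ : ∃ c0 : ℕ, (∀ t, ∀ g ∈ G, Ge (w0 t) (- (c0 : ℤ)) (g (aeval Z Q)) ∧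
      ∀ i, Ge (w0 t) (- (c0 : ℤ)) (g (b i))) ∧
      ∀ s, ∀ g ∈ G0, Ge (ws s) (- (c0 : ℤ)) (g (aeval Z Q)) ∧
      ∀ i, Ge (ws s) (- (c0 : ℤ)) (g (b i)) := by
    have hG0fin : (G0 : Set (K ≃ₐ[k] K)).Finite := Set.toFinite _
    let T : Finset K := hG0fin.toFinset.biUnion fun g =>
      insert (g (aeval Z Q)) (Finset.univ.image fun i => g (b i))
    let W : Finset (Place k K) := Finset.univ.image w0 ∪ Finset.univ.image ws
    obtain ⟨c0, hc0⟩ : ∃ c0 : ℕ, c0 = (∑ w ∈ W, ∑ z ∈ T, |w.ord z|).toNat := ⟨_, rfl⟩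
    have hmain : ∀ w ∈ W, ∀ z ∈ T, Ge w (- (c0 : ℤ)) z := by
      intro w hw z hz
      right
      have h1 : |w.ord z| ≤ ∑ z ∈ T, |w.ord z| :=
        Finset.single_le_sum (f := fun z => |w.ord z|) (fun _ _ => abs_nonneg _) hz
      have h2 : ∑ z ∈ T, |w.ord z| ≤ ∑ w ∈ W, ∑ z ∈ T, |w.ord z| :=
        Finset.single_le_sum (f := fun w => ∑ z ∈ T, |w.ord z|)
          (fun _ _ => Finset.sum_nonneg fun _ _ => abs_nonneg _) hw
      have h3 := neg_abs_le (w.ord z)
      have h4 := Int.self_le_toNat (∑ w ∈ W, ∑ z ∈ T, |w.ord z|)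
      rw [hc0]
      linarith
    have hT1 : ∀ g ∈ G0, g (aeval Z Q) ∈ T := fun g hg =>
      Finset.mem_biUnion.2 ⟨g, by simpa using hg, Finset.mem_insert_self _ _⟩
    have hT2 : ∀ g ∈ G0, ∀ i, g (b i) ∈ T := fun g hg i =>
      Finset.mem_biUnion.2 ⟨g, by simpa using hg, Finset.mem_insert_of_mem
        (Finset.mem_image_of_mem _ (Finset.mem_univ i))⟩
    have hW1 : ∀ t, w0 t ∈ W := fun t =>
      Finset.mem_union_left _ (Finset.mem_image_of_mem _ (Finset.mem_univ t))
    have hW2 : ∀ s, ws s ∈ W := fun s =>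
      Finset.mem_union_right _ (Finset.mem_image_of_mem _ (Finset.mem_univ s))
    exact ⟨c0, fun t g hg => ⟨hmain _ (hW1 t) _ (hT1 g (hGG hg)),
      fun i => hmain _ (hW1 t) _ (hT2 g (hGG hg) i)⟩,
      fun s g hg => ⟨hmain _ (hW2 s) _ (hT1 g hg), fun i => hmain _ (hW2 s) _ (hT2 g hg i)⟩⟩
  refine ⟨δ, b', Q, 2 * c0 + c1, hQ0, fun j D M f hfine hinf htest => ?_⟩
  have hpow : ∀ (w : Place k K) (z : K), Ge w (- (c0 : ℤ)) z → ∀ i : ℕ, Ge w (- (i * c0 : ℤ)) (z ^ i) := by
    intro w z hz i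
    induction i with
    | zero => simpa using (Ge.one (P := w))
    | succ i ih =>
      rw [pow_succ]
      refine (ih.mul hz).mono (le_of_eq ?_)
      push_cast
      ring
  let Ψ : K →ₗ[k] (Fin δ → K) := LinearMap.pi fun i =>
    (tr G0).comp (LinearMap.mulRight k (aeval Z Q ^ (j + 1) * b i))
  have hΨ : ∀ f i, Ψ f i = tr G0 (f * (aeval Z Q ^ (j + 1) * b i)) := fun f i => rfl
  -- the traces
  have hmem : ∀ i, ∃ R : MvPolynomial (Fin (d + 1)) k,
      Ψ f i = ((aeval Y R : fixedField G0) : K) ∧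
      ∀ a ∈ R.support, (∀ t, (Φ.wbd a t : ℤ) ≤ D t + (2 * c0 + c1 : ℕ) * (j + 1)) ∧
        (∀ s, M s - (2 * c0 + c1 : ℕ) * (j + 1) ≤ es s * wt (lam s) a) := by
    intro i
    obtain ⟨z, hz⟩ : ∃ z, z = f * (aeval Z Q ^ (j + 1) * b i) := ⟨_, rfl⟩
    rw [hΨ, ← hz]
    have hgz : ∀ g ∈ G, g z = (aeval Z Q ^ j * g f) * (aeval Z Q * g (b i)) := by
      intro g hg
      rw [hz, map_mul, map_mul, map_pow, hgQ g hg]
      ring
    obtain ⟨t, ht⟩ : ∃ t : fixedField G, (t : K) = tr G z := ⟨⟨_, tr_fix G z⟩, rfl⟩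
    have hreg : ∃ P : MvPolynomial (Fin (d + 1)) k, t = aeval X P := by
      refine poly_of_reg hX fun p hp v hv1 hv2 => ?_
      obtain ⟨w, e, hwv, hdom⟩ := hfine p hp v hv1 hv2
      have hwZ : ∀ P : MvPolynomial (Fin (d + 1)) k, w.Reg (aeval Z P) := by
        intro P
        rw [← hXZ]
        refine hwv.reg.2 ?_
        by_cases hP : P = 0
        · rw [hP, map_zero]
          exact v.reg_zero
        · exact Or.inr (hv2 P hP).1
      have h1 : w.Reg (t : K) := by
        rw [ht]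
        refine tr_ge G (N := 0) fun g hg => ?_
        rw [hgz g hg]
        refine w.reg_mul ?_ (hQb i g hg w hwZ)
        rcases hdom g hg with h3 | ⟨s', hs', hs0, hle⟩
        · rw [h3, map_zero, mul_zero]
          exact w.reg_zero
        · obtain ⟨s, hsS, rfl⟩ := mem_pw.1 hs'
          by_cases hf0 : f = 0
          · rw [hf0, map_zero, mul_zero]
            exact w.reg_zero
          have hgf : g f ≠ 0 := by simpa using hf0
          have hgs : g (s ^ j) ≠ 0 := by simpa using hs0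
          have h4 : w.Reg (aeval Z Q ^ j * g (s ^ j)) := by
            rw [map_pow, ← mul_pow]
            exact reg_pow' w (hQS s hsS g hg w hwZ) j
          have h5 := h4.resolve_left (mul_ne_zero (pow_ne_zero _ hQK) hgs)
          right
          rw [w.ord_mul (pow_ne_zero _ hQK) hgf]
          rw [w.ord_mul (pow_ne_zero _ hQK) hgs] at h5
          linarith
      exact hwv.reg.1 h1
    obtain ⟨P, hP⟩ := hreg
    have htr : tr G0 (aeval Z P) = (Nat.card G : K) * tr G0 z := by
      rw [← tr_tr G0 G hGG, ← hXZ, ← hP, ht]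
    have hGne : (Nat.card G : K) ≠ 0 := by
      have h4 : Nat.card G ≠ 0 := Nat.card_pos.ne'
      exact_mod_cast h4
    by_cases hP0 : P = 0
    · refine ⟨0, ?_, by simp⟩
      rw [hP0, map_zero, map_zero] at htr
      rcases mul_eq_zero.1 htr.symm with h | h
      · exact absurd h hGne
      · rw [h, map_zero]
        rfl
    -- the degree
    have hdeg : ∀ t, (degB (Finset.univ.filter fun b => Φ.τ b = t) P : ℤ) ≤
        D t + (2 * c0) * (j + 1) := by
      intro t'
      have h1 : Ge (w0 t') (- (e0 t' * D t') - (j + 2) * c0) (t : K) := by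
        rw [ht]
        refine tr_ge G fun g hg => ?_
        rw [hgz g hg]
        have h2 := hpow (w0 t') _ ((hc0 t' g hg).1) j
        rw [hgQ g hg] at h2
        have h3 := (hc0 t' g hg).1
        rw [hgQ g hg] at h3
        refine ((h2.mul (hinf t' g hg)).mul (h3.mul ((hc0 t' g hg).2 i))).mono (le_of_eq ?_)
        ring
      have ht0 : (t : K) ≠ 0 := by
        rw [hP]
        have := hX.ne hP0
        simpa using this
      have h2 := h1.resolve_left ht0
      have h3 : (w0 t').ord (t : K) = e0 t' * (v0 t').ord t := (h0 _).2 t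
      rw [h3, hP, hv0 _ P hP0] at h2
      have he : (1 : ℤ) ≤ e0 t' := by exact_mod_cast (h0 t').1
      obtain ⟨g, hg⟩ : ∃ g : ℤ, g = (degB (Finset.univ.filter fun b => Φ.τ b = t') P : ℤ) -
        D t' := ⟨_, rfl⟩
      have h4 : (e0 t' : ℤ) * g ≤ (j + 2) * c0 := by
        rw [hg]
        linarith
      have h5 : g ≤ (j + 2) * c0 := by
        by_cases hg0 : g ≤ 0
        · exact hg0.trans (by positivity)
        · push Not at hg0
          nlinarith
      have h6 : ((j : ℤ) + 2) * c0 ≤ (2 * c0) * (j + 1) := by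
        have : (0 : ℤ) ≤ (j : ℤ) * c0 := by positivity
        nlinarith
      linarith
    obtain ⟨R, hR1, hR2⟩ := hc1 (fun t => (D t + (2 * c0) * (j + 1)).toNat) P
      (Φ.mem_W fun m hm t' => by
        have h1 := sum_le_degB (B := Finset.univ.filter fun b => Φ.τ b = t') hm
        have h2 : Φ.bd m t' = ∑ b ∈ Finset.univ.filter fun b => Φ.τ b = t', m b := by
          unfold Blk.bd
          rw [Finset.sum_filter]
        have h3 := hdeg t'
        change Φ.bd m t' ≤ _
        rw [h2]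
        zify
        rw [Int.toNat_of_nonneg (by
          have : (0 : ℤ) ≤ degB (Finset.univ.filter fun b => Φ.τ b = t') P := by positivity
          linarith)]
        have h4 : ((∑ b ∈ Finset.univ.filter fun b => Φ.τ b = t', m b : ℕ) : ℤ) ≤
          degB (Finset.univ.filter fun b => Φ.τ b = t') P := by exact_mod_cast h1
        push_cast at h4
        linarith)
    have hR' : tr G0 z = ((aeval Y (C ((Nat.card G : k)⁻¹) * R) : fixedField G0) : K) := by
      have h1 : (Nat.card G : k) ≠ 0 := by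
        have h4 : Nat.card G ≠ 0 := Nat.card_pos.ne'
        exact_mod_cast h4
      rw [map_mul, aeval_C]
      change _ = algebraMap k K _ * ((aeval Y R : fixedField G0) : K)
      rw [← hR1, htr, map_inv₀, map_natCast]
      field_simp
    refine ⟨C ((Nat.card G : k)⁻¹) * R, hR', fun a ha => ?_⟩
    have haR : a ∈ R.support := by
      rw [C_mul'] at ha
      exact support_smul ha
    refine ⟨fun t' => ?_, fun s => ?_⟩
    · have h1 := hR2 a haR t'
      have h2 := hdeg t'
      have h3 : (0 : ℤ) ≤ degB (Finset.univ.filter fun b => Φ.τ b = t') P := by positivity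
      have h4 : ((D t' + (2 * c0) * (j + 1)).toNat : ℤ) = D t' + (2 * c0) * (j + 1) :=
        Int.toNat_of_nonneg (by linarith)
      have h5 : (Φ.wbd a t' : ℤ) ≤ ((D t' + (2 * c0) * (j + 1)).toNat : ℤ) + c1 := by
        exact_mod_cast h1
      rw [h4] at h5
      push_cast
      have h6 : (0 : ℤ) ≤ (c1 : ℤ) * j := by positivity
      nlinarith
    · have hRne : C ((Nat.card G : k)⁻¹) * R ≠ 0 := by
        intro h
        rw [h] at ha
        simp at ha
      have h1 : Ge (ws s) (M s - (j + 2) * c0) (tr G0 z) := by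
        refine tr_ge G0 fun g hg => ?_
        have h2 : g z = g f * (g (aeval Z Q) ^ (j + 1) * g (b i)) := by
          rw [hz, map_mul, map_mul, map_pow]
        rw [h2]
        have h3 := hpow (ws s) _ ((hc0' s g hg).1) (j + 1)
        refine ((htest s g hg).mul (h3.mul ((hc0' s g hg).2 i))).mono (le_of_eq ?_)
        push_cast
        ring
      have h2 : tr G0 z ≠ 0 := by
        rw [hR']
        have := hY.ne hRne
        simpa using this
      have h3 := h1.resolve_left h2
      rw [hR'] at h3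
      have h4 : (ws s).ord ((aeval Y (C ((Nat.card G : k)⁻¹) * R) : fixedField G0) : K) =
        es s * (vs s).ord (aeval Y (C ((Nat.card G : k)⁻¹) * R)) := (hs s).2 _
      rw [h4, hvs s _ hRne] at h3
      have h5 : (mord (lam s) (C ((Nat.card G : k)⁻¹) * R) : ℤ) ≤ wt (lam s) a := by
        exact_mod_cast mord_le (lam s) ha
      have h6 : (es s : ℤ) * mord (lam s) (C ((Nat.card G : k)⁻¹) * R) ≤ es s * wt (lam s) a :=
        mul_le_mul_of_nonneg_left h5 (by positivity)
      have h7 : ((j : ℤ) + 2) * c0 ≤ (2 * c0 + c1 : ℕ) * (j + 1) := by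
        push_cast
        have : (0 : ℤ) ≤ (j : ℤ) * c0 := by positivity
        have h8 : (0 : ℤ) ≤ (c1 : ℤ) * (j + 1) := by positivity
        nlinarith
      linarith
  choose R hR hRs using hmem
  refine ⟨R, ?_, hRs⟩
  rw [hb' (f * aeval (fun j => (X j : K)) Q ^ (j + 1))]
  refine Finset.sum_congr rfl fun i _ => ?_
  rw [← hR, hΨ]
  congr 2
  ring

end

end Pool.Agent.Q57.GH
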